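import Pool.Agent.Lib.TG_h68.NormModelA

/-!
# TANK G, A5: the normalisation of a model is a model (helper68)

`exists_norm`: a model `P` has a subspace `P'` (containing a power of `P`) such that, for every
`f` in a finite spanning set `S` of `P`, `k[P' / f^M]` is the integral closure of `k[P / f]`.
-/

set_option autoImplicit false

namespace Pool.Agent.TGh68

open Polynomial

universe u

variable {k K : Type u} [Field k] [Field K] [Algebra k K]

theorem span_div_mem (B : Submodule k K) {S : Set K} {f : K} (h : ∀ g ∈ S, g / f ∈ B) {g : K}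
    (hg : g ∈ Submodule.span k S) : g / f ∈ B := by
  induction hg using Submodule.span_induction with
  | mem g hg => exact h g hg
  | zero => rw [zero_div]; exact B.zero_mem
  | add a b _ _ ha hb => rw [add_div]; exact B.add_mem ha hb
  | smul c a _ ha => rw [smul_div_assoc]; exact B.smul_mem c ha

theorem exists_norm [PerfectField k] (hK : (⊤ : IntermediateField k K).FG) (P : Submodule k K)
    (S : Finset K) (hS : Submodule.span k (S : Set K) = P) (hS0 : ∀ f ∈ S, f ≠ 0)
    (halg : ∀ f ∈ S, ∀ x : K, IsAlgebraic (ch0 P f) x) :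
    ∃ (M : ℕ) (G : Finset K), 0 < M ∧
      (∀ g ∈ G, ∀ f ∈ P, f ≠ 0 → IsIntegral (ch0 P f) (g / f ^ M)) ∧
      ∀ f ∈ S, ∀ x : K, IsIntegral (ch0 P f) x ↔
        x ∈ ch0 (P ^ M ⊔ Submodule.span k (G : Set K)) (f ^ M) := by
  classical
  have hSP : ∀ f ∈ S, f ∈ P := fun f hf => by
    rw [← hS]; exact Submodule.subset_span (Finset.mem_coe.2 hf)
  have hfg : ∀ f, (ch0 P f).FG := by
    intro f
    refine ⟨S.image fun g => g / f, le_antisymm (Algebra.adjoin_mono ?_) (Algebra.adjoin_le ?_)⟩
    · intro x hx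
      obtain ⟨g, hg, rfl⟩ := Finset.mem_image.1 (Finset.mem_coe.1 hx)
      exact ⟨g, hSP g hg, rfl⟩
    · rintro _ ⟨g, hg, rfl⟩
      have hg' : g ∈ Submodule.span k (S : Set K) := by rw [hS]; exact hg
      exact span_div_mem (Algebra.adjoin k ((S.image fun g => g / f : Finset K) : Set K)).toSubmodule
        (fun g hg => Algebra.subset_adjoin (Finset.mem_coe.2
          (Finset.mem_image_of_mem (fun g => g / f) hg))) hg'
  -- generators of the integral closures
  have hgen : ∀ f : K, ∃ G : Finset K, f ∈ S → (∀ g ∈ G, IsIntegral (ch0 P f) g) ∧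
      ∀ x : K, IsIntegral (ch0 P f) x → x ∈ Algebra.adjoin k ((ch0 P f : Set K) ∪ G) := by
    intro f
    by_cases hf : f ∈ S
    · have h1 := finite_integralClosure hK (ch0 P f) (hfg f) (halg f hf)
      obtain ⟨G₀, hG₀⟩ := h1.1
      refine ⟨G₀.image Subtype.val, fun _ => ⟨fun g hg => ?_, fun x hx => ?_⟩⟩
      · obtain ⟨g', -, rfl⟩ := Finset.mem_image.1 hg
        exact g'.2
      · have h2 : (⟨x, hx⟩ : integralClosure (ch0 P f) K) ∈
            Submodule.span (ch0 P f) (G₀ : Set (integralClosure (ch0 P f) K)) := by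
          rw [hG₀]; trivial
        have h3 : ∀ y : integralClosure (ch0 P f) K, y ∈
            Submodule.span (ch0 P f) (G₀ : Set (integralClosure (ch0 P f) K)) →
            (y : K) ∈ Algebra.adjoin k ((ch0 P f : Set K) ∪
              (G₀.image Subtype.val : Finset K)) := by
          intro y hy
          induction hy using Submodule.span_induction with
          | mem y hy => exact Algebra.subset_adjoin (Or.inr (Finset.mem_coe.2
              (Finset.mem_image_of_mem _ hy)))
          | zero => exact Subalgebra.zero_mem _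
          | add a b _ _ ha hb => exact Subalgebra.add_mem _ ha hb
          | smul c a _ ha =>
            have h4 : ((c • a : integralClosure (ch0 P f) K) : K) = (c : K) * a := rfl
            rw [h4]
            exact Subalgebra.mul_mem _ (Algebra.subset_adjoin (Or.inl c.2)) ha
        exact h3 _ h2
    · exact ⟨∅, fun h => absurd h hf⟩
  choose G hG using hgen
  -- the degree
  have hM : ∀ f g : K, ∃ M : ℕ, f ∈ S → g ∈ G f → ∀ M', M ≤ M' → ∀ f' ∈ P, f' ≠ 0 →
      IsIntegral (ch0 P f') (g * f ^ M' / f' ^ M') := by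
    intro f g
    by_cases h : f ∈ S ∧ g ∈ G f
    · obtain ⟨M, hM⟩ := exists_shift (hSP f h.1) (hS0 f h.1) ((hG f h.1).1 g h.2)
      exact ⟨M, fun _ _ => hM⟩
    · exact ⟨0, fun h1 h2 => absurd ⟨h1, h2⟩ h⟩
  choose m hm using hM
  obtain ⟨M, hM1, hMm⟩ : ∃ M : ℕ, 0 < M ∧ ∀ f ∈ S, ∀ g ∈ G f, m f g ≤ M := by
    refine ⟨1 + ∑ f ∈ S, ∑ g ∈ G f, m f g, by omega, fun f hf g hg => ?_⟩
    have h1 : m f g ≤ ∑ g ∈ G f, m f g :=
      Finset.single_le_sum (f := fun g => m f g) (fun _ _ => Nat.zero_le _) hg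
    have h2 : ∑ g ∈ G f, m f g ≤ ∑ f ∈ S, ∑ g ∈ G f, m f g :=
      Finset.single_le_sum (f := fun f => ∑ g ∈ G f, m f g) (fun _ _ => Nat.zero_le _) hf
    omega
  let GG : Finset K := S.biUnion fun f => (G f).image fun g => g * f ^ M
  have hGG : ∀ q ∈ GG, ∀ f ∈ P, f ≠ 0 → IsIntegral (ch0 P f) (q / f ^ M) := by
    intro q hq f hf hf0
    obtain ⟨f', hf', hq⟩ := Finset.mem_biUnion.1 hq
    obtain ⟨g, hg, rfl⟩ := Finset.mem_image.1 hq
    exact hm f' g hf' hg M (hMm f' hf' g hg) f hf hf0
  refine ⟨M, GG, hM1, hGG, fun f hf x => ⟨fun hx => ?_, fun hx => ?_⟩⟩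
  · have h1 := (hG f hf).2 x hx
    refine (Algebra.adjoin_le ?_ : Algebra.adjoin k ((ch0 P f : Set K) ∪ G f) ≤ _) h1
    rintro y (hy | hy)
    · have h2 : ch0 P f ≤ ch0 (P ^ M ⊔ Submodule.span k (GG : Set K)) (f ^ M) := by
        refine Algebra.adjoin_le ?_
        rintro _ ⟨g, hg, rfl⟩
        obtain ⟨e, rfl⟩ : ∃ e, M = e + 1 := ⟨M - 1, by omega⟩
        have h3 : g / f = g * f ^ e / f ^ (e + 1) := by
          rw [pow_succ, mul_comm g, mul_div_mul_left _ _ (pow_ne_zero _ (hS0 f hf))]
        simp only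
        rw [h3]
        refine div_mem_ch0 (Submodule.mem_sup_left ?_) _
        rw [pow_succ']
        exact Submodule.mul_mem_mul hg (Submodule.pow_mem_pow P (hSP f hf) e)
      exact h2 hy
    · have h2 : y = y * f ^ M / f ^ M :=
        (mul_div_cancel_right₀ _ (pow_ne_zero _ (hS0 f hf))).symm
      rw [h2]
      refine div_mem_ch0 (Submodule.mem_sup_right (Submodule.subset_span ?_)) _
      exact Finset.mem_coe.2 (Finset.mem_biUnion.2 ⟨f, hf, Finset.mem_image.2 ⟨y, hy, rfl⟩⟩)
  · have h1 : ch0 (P ^ M ⊔ Submodule.span k (GG : Set K)) (f ^ M) ≤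
        (integralClosure (ch0 P f) K).restrictScalars k := by
      refine Algebra.adjoin_le ?_
      rintro _ ⟨q, hq, rfl⟩
      obtain ⟨a, ha, b, hb, rfl⟩ := Submodule.mem_sup.1 hq
      change IsIntegral (ch0 P f) ((a + b) / f ^ M)
      rw [add_div]
      refine IsIntegral.add ?_ ?_
      · exact isIntegral_algebraMap (x := (⟨_, pow_div_mem_ch0 P f M ha⟩ : ch0 P f))
      · exact span_div_mem ((integralClosure (ch0 P f) K).restrictScalars k).toSubmodule
          (fun g hg => hGG g hg f (hSP f hf) (hS0 f hf)) hb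
    exact h1 hx

end Pool.Agent.TGh68
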