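import Mathlib

/-!
# Finiteness of the integral closure of finitely generated domains over a perfect field (helper68)

`finite_integralClosure`: `A` a f.g. `k`-subalgebra of `K`, `K / k` a f.g. field, algebraic over `A`:
the integral closure of `A` in `K` is a finite `A`-module.
-/

set_option autoImplicit false

namespace Pool.Agent.TGh68

/-- If `R → C → S` is finite, `C → S` injective and `R` noetherian, then `R → C` is finite. -/
theorem finite_of_comp {R C S : Type*} [CommRing R] [CommRing C] [CommRing S] [IsNoetherianRing R]
    (f : R →+* C) (g : C →+* S) (hg : Function.Injective g) (h : (g.comp f).Finite) :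
    f.Finite := by
  let _ : Algebra R S := (g.comp f).toAlgebra
  let _ : Algebra R C := f.toAlgebra
  have h1 : Module.Finite R S := h
  let g' : C →ₗ[R] S :=
    { toFun := g
      map_add' := map_add g
      map_smul' := fun r c => by
        rw [Algebra.smul_def, map_mul, RingHom.id_apply, Algebra.smul_def]
        rfl }
  have h2 : Module.Finite R C := Module.Finite.of_injective g' hg
  exact h2

/-- The Frobenius endomorphism of a polynomial ring over a perfect field is finite. -/
theorem finite_frobenius (k : Type*) [Field k] (p : ℕ) [ExpChar k p] [PerfectRing k p] (n e : ℕ) :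
    (iterateFrobenius (MvPolynomial (Fin n) k) p e).Finite := by
  classical
  obtain ⟨φ, hφ⟩ : ∃ φ, φ = iterateFrobenius (MvPolynomial (Fin n) k) p e := ⟨_, rfl⟩
  rw [← hφ]
  have hint : φ.IsIntegral := by
    intro a
    refine ⟨Polynomial.X ^ (p ^ e) - Polynomial.C a,
      Polynomial.monic_X_pow_sub_C a (pow_ne_zero _ (expChar_ne_zero k p)), ?_⟩
    rw [Polynomial.eval₂_sub, Polynomial.eval₂_X_pow, Polynomial.eval₂_C, hφ,
      iterateFrobenius_def, sub_self]
  refine hint.to_finite ?_
  let _ : Algebra (MvPolynomial (Fin n) k) (MvPolynomial (Fin n) k) := φ.toAlgebra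
  refine ⟨⟨Finset.univ.image MvPolynomial.X, ?_⟩⟩
  rw [Algebra.eq_top_iff]
  intro q
  have hsm : ∀ r : MvPolynomial (Fin n) k, φ r ∈
      Algebra.adjoin (MvPolynomial (Fin n) k) ((Finset.univ.image MvPolynomial.X :
        Finset (MvPolynomial (Fin n) k)) : Set (MvPolynomial (Fin n) k)) := fun r =>
    Subalgebra.algebraMap_mem _ r
  induction q using MvPolynomial.induction_on with
  | C a =>
    obtain ⟨b, rfl⟩ := (bijective_iterateFrobenius k p e).2 a
    have h1 := hsm (MvPolynomial.C b)
    rwa [hφ, iterateFrobenius_def, ← map_pow, ← iterateFrobenius_def] at h1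
  | add a b ha hb => exact add_mem ha hb
  | mul_X a i ha => exact mul_mem ha (Algebra.subset_adjoin (by simp))

/-- The integral closure of a polynomial ring over a perfect field in a finite extension of its
field of fractions. -/
theorem finite_integralClosure_mv (k : Type*) [Field k] [PerfectField k] (n : ℕ) (F L : Type*)
    [Field F] [Algebra (MvPolynomial (Fin n) k) F] [IsFractionRing (MvPolynomial (Fin n) k) F]
    [Field L] [Algebra F L] [FiniteDimensional F L] [Algebra (MvPolynomial (Fin n) k) L]
    [IsScalarTower (MvPolynomial (Fin n) k) F L] :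
    Module.Finite (MvPolynomial (Fin n) k) (integralClosure (MvPolynomial (Fin n) k) L) := by
  obtain ⟨p, hp⟩ := ExpChar.exists k
  have hpF : ExpChar F p := expChar_of_injective_algebraMap
    (IsFractionRing.injective (MvPolynomial (Fin n) k) F) p
  have hpL : ExpChar L p := expChar_of_injective_algebraMap (algebraMap F L).injective p
  let Ls := separableClosure F L
  have hpLs : ExpChar Ls p := expChar_of_injective_algebraMap (algebraMap F Ls).injective p
  have hsep : Algebra.IsSeparable F Ls := inferInstance
  have htw : IsScalarTower (MvPolynomial (Fin n) k) Ls L := IsScalarTower.of_algebraMap_eq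
    fun _ => rfl
  have hS : Module.Finite (MvPolynomial (Fin n) k) (integralClosure (MvPolynomial (Fin n) k) Ls) :=
    IsIntegralClosure.finite (MvPolynomial (Fin n) k) F Ls _
  obtain ⟨e, he⟩ : ∃ e, IsPurelyInseparable.exponent Ls L = e := ⟨_, rfl⟩
  let φ : L →+* Ls := IsPurelyInseparable.iterateFrobenius Ls L p he.le
  have hφ : ∀ a, algebraMap Ls L (φ a) = a ^ p ^ e := fun a =>
    IsPurelyInseparable.algebraMap_iterateFrobenius Ls p he.le a
  have hint : ∀ a ∈ integralClosure (MvPolynomial (Fin n) k) L,
      φ a ∈ integralClosure (MvPolynomial (Fin n) k) Ls := by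
    intro a ha
    have h1 : IsIntegral (MvPolynomial (Fin n) k) (algebraMap Ls L (φ a)) := by
      rw [hφ]
      exact IsIntegral.pow ha _
    exact (isIntegral_algebraMap_iff (algebraMap Ls L).injective).1 h1
  let g : integralClosure (MvPolynomial (Fin n) k) L →+*
      integralClosure (MvPolynomial (Fin n) k) Ls :=
    { toFun := fun a => ⟨φ a, hint a a.2⟩
      map_one' := Subtype.ext (map_one φ)
      map_mul' := fun a b => Subtype.ext (map_mul φ _ _)
      map_zero' := Subtype.ext (map_zero φ)
      map_add' := fun a b => Subtype.ext (map_add φ _ _) }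
  refine RingHom.finite_algebraMap.1 (finite_of_comp (algebraMap _ _) g ?_ ?_)
  · intro a b hab
    exact Subtype.ext (φ.injective (congrArg Subtype.val hab))
  · have h1 : g.comp (algebraMap (MvPolynomial (Fin n) k)
        (integralClosure (MvPolynomial (Fin n) k) L)) =
        (algebraMap (MvPolynomial (Fin n) k) (integralClosure (MvPolynomial (Fin n) k) Ls)).comp
          (iterateFrobenius (MvPolynomial (Fin n) k) p e) := by
      refine RingHom.ext fun r => ?_
      apply Subtype.ext
      apply (algebraMap Ls L).injective
      change algebraMap Ls L (φ (algebraMap (MvPolynomial (Fin n) k) L r)) =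
        algebraMap Ls L (algebraMap (MvPolynomial (Fin n) k) Ls
          (iterateFrobenius (MvPolynomial (Fin n) k) p e r))
      rw [hφ, iterateFrobenius_def, ← IsScalarTower.algebraMap_apply, map_pow]
    rw [h1]
    exact RingHom.Finite.comp (RingHom.finite_algebraMap.2 hS) (finite_frobenius k p n e)

/-- **The integral closure of a finitely generated domain over a perfect field is finite.** -/
theorem finite_integralClosure {k K : Type*} [Field k] [PerfectField k] [Field K] [Algebra k K]
    (hK : (⊤ : IntermediateField k K).FG) (A : Subalgebra k K) (hA : A.FG)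
    (halg : ∀ f : K, IsAlgebraic A f) : Module.Finite A (integralClosure A K) := by
  have hft : Algebra.FiniteType k A := (Subalgebra.fg_iff_finiteType A).1 hA
  obtain ⟨n, g, hinj, hint⟩ := exists_integral_inj_algHom_of_fg k A
  let _ : Algebra (MvPolynomial (Fin n) k) A := g.toRingHom.toAlgebra
  let _ : Algebra (MvPolynomial (Fin n) k) K := ((algebraMap A K).comp g.toRingHom).toAlgebra
  have htow : IsScalarTower (MvPolynomial (Fin n) k) A K :=
    IsScalarTower.of_algebraMap_eq fun _ => rfl
  have htow' : IsScalarTower k (MvPolynomial (Fin n) k) K := by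
    refine IsScalarTower.of_algebraMap_eq fun c => ?_
    change algebraMap k K c = algebraMap A K (g (algebraMap k _ c))
    rw [g.commutes, ← IsScalarTower.algebraMap_apply]
  have hinj' : Function.Injective (algebraMap (MvPolynomial (Fin n) k) K) :=
    (FaithfulSMul.algebraMap_injective A K).comp hinj
  have hfs : FaithfulSMul (MvPolynomial (Fin n) k) K :=
    (faithfulSMul_iff_algebraMap_injective _ _).2 hinj'
  let F := FractionRing (MvPolynomial (Fin n) k)
  let _ : Algebra F K := FractionRing.liftAlgebra (MvPolynomial (Fin n) k) K
  have htowF : IsScalarTower (MvPolynomial (Fin n) k) F K :=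
    FractionRing.isScalarTower_liftAlgebra _ _
  have htowkF : IsScalarTower k F K := by
    refine IsScalarTower.of_algebraMap_eq fun c => ?_
    rw [IsScalarTower.algebraMap_apply k (MvPolynomial (Fin n) k) F,
      ← IsScalarTower.algebraMap_apply (MvPolynomial (Fin n) k) F K,
      ← IsScalarTower.algebraMap_apply k (MvPolynomial (Fin n) k) K]
  have hAi : Algebra.IsIntegral (MvPolynomial (Fin n) k) A := ⟨hint⟩
  have halgF : Algebra.IsAlgebraic F K := by
    refine ⟨fun f => ?_⟩
    have h1 : Algebra.IsAlgebraic A K := ⟨halg⟩
    have h2 : Algebra.IsAlgebraic (MvPolynomial (Fin n) k) K :=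
      Algebra.IsAlgebraic.trans (MvPolynomial (Fin n) k) A K
    exact (h2.isAlgebraic f).extendScalars
      (IsFractionRing.injective (MvPolynomial (Fin n) k) F)
  have hfin : FiniteDimensional F K := by
    have h1 : Algebra.EssFiniteType k K := IntermediateField.fg_top_iff.1 hK
    have h2 : Algebra.EssFiniteType F K := Algebra.EssFiniteType.of_comp k F K
    exact Algebra.finite_of_essFiniteType_of_isAlgebraic
  have h1 := finite_integralClosure_mv k n F K
  have heq : ∀ x : K, x ∈ integralClosure A K ↔
      x ∈ integralClosure (MvPolynomial (Fin n) k) K := by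
    intro x
    constructor
    · intro h
      exact isIntegral_trans (A := A) x h
    · intro h
      exact IsIntegral.tower_top h
  let f : integralClosure A K →ₗ[MvPolynomial (Fin n) k]
      integralClosure (MvPolynomial (Fin n) k) K :=
    { toFun := fun x => ⟨x, (heq x).1 x.2⟩
      map_add' := fun _ _ => rfl
      map_smul' := fun _ _ => rfl }
  have h2 : Module.Finite (MvPolynomial (Fin n) k) (integralClosure A K) :=
    Module.Finite.of_injective f fun x y hxy => by
      have h3 : ((f x : _) : K) = ((f y : _) : K) := congrArg Subtype.val hxy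
      exact Subtype.ext h3
  exact Module.Finite.of_restrictScalars_finite (MvPolynomial (Fin n) k) A _

end Pool.Agent.TGh68
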