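import Pool.Agent.Lib.TG_h68.Cone
import Pool.Agent.Lib.TG9.Defs

/-!
# TANK G, row CL: complete linear systems are finite dimensional; the conductor (helper68)
-/

set_option autoImplicit false

namespace Pool.Agent.TG9

open Pool.Agent.TG (Ov ZDim IsMin IsModel Bir Fin' ch chN HN)
open Module

universe u

variable {k K : Type u} [Field k] [Field K] [Algebra k K] {V : ValuationSubring K}
  {P Q L W : Submodule k K} {f g w : K}

/-- `Ge` in terms of a minimal element. -/
theorem ge_iff (hw : IsMin V P w) : Ge V f P ↔ f / w ∈ V := by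
  have h0 : V.valuation w ≠ 0 := (Valuation.ne_zero_iff _).2 hw.ne
  constructor
  · rintro (rfl | ⟨y, hy, hfy⟩)
    · rw [zero_div]
      exact V.zero_mem
    · rw [← V.valuation_le_one_iff, map_div₀]
      refine (div_le_one₀ (zero_lt_iff.2 h0)).2 (hfy.trans ?_)
      have h3 := (V.valuation_le_one_iff _).2 (hw.div y hy)
      rw [map_div₀] at h3
      exact (div_le_one₀ (zero_lt_iff.2 h0)).1 h3
  · intro h
    refine Or.inr ⟨w, hw.mem, ?_⟩
    rw [← V.valuation_le_one_iff, map_div₀] at h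
    exact (div_le_one₀ (zero_lt_iff.2 h0)).1 h

theorem cl_pow (hW : IsModel W) (N : ℕ) : cl (W ^ N) = HN W N := by
  ext f
  constructor
  · intro h V hV w hw
    exact (ge_iff (hw.pow hV N)).1 (h V hV)
  · intro h V hV
    obtain ⟨w, hw⟩ := TG.exists_isMin hV hW
    exact (ge_iff (hw.pow hV N)).2 (h V hV w hw)

theorem cl_mono (h : P ≤ Q) : cl P ≤ cl Q := fun _ hf V hV =>
  (hf V hV).imp id fun ⟨y, hy, hfy⟩ => ⟨y, h hy, hfy⟩

theorem cl_bot : cl (⊥ : Submodule k K) = ⊥ := by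
  rw [eq_bot_iff]
  intro f hf
  rcases hf ⊤ (fun _ => trivial) with rfl | ⟨y, hy, hfy⟩
  · exact Submodule.zero_mem _
  · rw [Submodule.mem_bot] at hy ⊢
    rw [hy, map_zero] at hfy
    exact (Valuation.zero_iff _).1 (le_antisymm hfy zero_le')

/-- `K` has a finite dimensional subspace which contains `1` and generates `K`. -/
theorem exists_bir (hK : (⊤ : IntermediateField k K).FG) : ∃ L : Submodule k K, L.FG ∧
    (1 : K) ∈ L ∧ Bir L := by
  classical
  obtain ⟨S, hS⟩ := hK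
  refine ⟨Submodule.span k ((insert 1 S : Finset K) : Set K), ⟨_, rfl⟩,
    Submodule.subset_span (Finset.mem_coe.2 (Finset.mem_insert_self _ _)), ?_⟩
  rw [Bir, eq_top_iff, ← hS, IntermediateField.adjoin_le_iff]
  intro x hx
  refine IntermediateField.subset_adjoin _ _ ⟨1, Submodule.subset_span (Finset.mem_coe.2
    (Finset.mem_insert_self _ _)), x, Submodule.subset_span (Finset.mem_coe.2
    (Finset.mem_insert_of_mem (Finset.mem_coe.1 hx))), by rw [div_one]⟩

theorem Bir.fin (h : Bir P) : Fin' P := by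
  unfold Fin'
  rw [Bir] at h
  rw [h]
  exact ⟨fun x => isAlgebraic_algebraMap (A := K) (⟨x, trivial⟩ : (⊤ : IntermediateField k K))⟩

theorem Bir.mul (hP : P ≠ ⊥) (h : Bir L) : Bir (P * L) := by
  obtain ⟨p, hp, hp0⟩ := (Submodule.ne_bot_iff P).1 hP
  rw [Bir, eq_top_iff, ← h, IntermediateField.adjoin_le_iff]
  rintro _ ⟨a, ha, b, hb, rfl⟩
  refine IntermediateField.subset_adjoin _ _ ⟨p * a, Submodule.mul_mem_mul hp ha, p * b,
    Submodule.mul_mem_mul hp hb, ?_⟩
  rw [mul_div_mul_left _ _ hp0]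

/-- Complete linear systems are finite dimensional. -/
theorem cl_fg [PerfectField k] (hK : (⊤ : IntermediateField k K).FG) (hP : P.FG) :
    (cl P).FG := by
  classical
  by_cases h0 : P = ⊥
  · rw [h0, cl_bot]
    exact Submodule.fg_bot
  obtain ⟨L, hL, h1, hbir⟩ := exists_bir hK
  have hPL : IsModel (P * L) := ⟨hP.mul hL, by
    obtain ⟨p, hp, hp0⟩ := (Submodule.ne_bot_iff P).1 h0
    refine (Submodule.ne_bot_iff _).2 ⟨p * 1, Submodule.mul_mem_mul hp h1, ?_⟩
    rwa [mul_one]⟩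
  have hle : P ≤ P * L := fun p hp => by
    have := Submodule.mul_mem_mul hp h1
    rwa [mul_one] at this
  obtain ⟨D, Q, hQ, -, -, hN⟩ := TGh68.exists_HN_gen hK hPL (Bir.fin (Bir.mul h0 hbir))
  have hfg : (cl (P * L)).FG := by
    have h2 := cl_pow hPL 1
    rw [pow_one] at h2
    rw [h2, hN 1]
    refine Submodule.fg_biSup _ _ fun e _ => ?_
    exact (hPL.fg.pow _).mul (hQ e)
  haveI : FiniteDimensional k (cl (P * L)) := Module.Finite.iff_fg.2 hfg
  haveI := Submodule.finiteDimensional_of_le (cl_mono hle)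
  exact Module.Finite.iff_fg.1 inferInstance

theorem pow_le_pow_of_one (h1 : (1 : K) ∈ L) {a b : ℕ} (h : a ≤ b) : L ^ a ≤ L ^ b := by
  obtain ⟨c, rfl⟩ := Nat.exists_eq_add_of_le h
  clear h
  induction c with
  | zero => exact le_rfl
  | succ c ih =>
    refine ih.trans fun x hx => ?_
    rw [← add_assoc, pow_succ]
    have := Submodule.mul_mem_mul hx h1
    rwa [mul_one] at this

theorem mem_pow_of_mem_adjoin (h1 : (1 : K) ∈ L) {x : K}
    (hx : x ∈ Algebra.adjoin k (L : Set K)) : ∃ r, x ∈ L ^ r := by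
  refine Algebra.adjoin_induction (R := k) (s := (L : Set K)) (p := fun x _ => ∃ r, x ∈ L ^ r)
    ?_ ?_ ?_ ?_ hx
  · exact fun x hx => ⟨1, by rwa [pow_one]⟩
  · exact fun c => ⟨0, by rw [pow_zero]; exact Submodule.mem_one.2 ⟨c, rfl⟩⟩
  · rintro x y _ _ ⟨r, hr⟩ ⟨s, hs⟩
    exact ⟨max r s, add_mem (pow_le_pow_of_one h1 (le_max_left r s) hr)
      (pow_le_pow_of_one h1 (le_max_right r s) hs)⟩
  · rintro x y _ _ ⟨r, hr⟩ ⟨s, hs⟩
    exact ⟨r + s, by rw [pow_add]; exact Submodule.mul_mem_mul hr hs⟩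

/-- Common denominators. -/
theorem exists_denom (h1 : (1 : K) ∈ L) (hbir : Bir L) (hQ : Q.FG) :
    ∃ (r : ℕ) (c : K), c ≠ 0 ∧ c ∈ L ^ r ∧ ∀ q ∈ Q, c * q ∈ L ^ r := by
  classical
  have htop : IntermediateField.adjoin k (L : Set K) = ⊤ := by
    rw [eq_top_iff, ← hbir, IntermediateField.adjoin_le_iff]
    rintro _ ⟨a, ha, b, hb, rfl⟩
    exact div_mem (IntermediateField.subset_adjoin _ _ hb) (IntermediateField.subset_adjoin _ _ ha)
  have hone : ∀ q : K, ∃ (r : ℕ) (c : K), c ≠ 0 ∧ c ∈ L ^ r ∧ c * q ∈ L ^ r := by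
    intro q
    have hq : q ∈ IntermediateField.adjoin k (L : Set K) := by rw [htop]; trivial
    obtain ⟨a, ha, b, hb, hab⟩ := IntermediateField.mem_adjoin_iff_div.1 hq
    obtain ⟨r, hr⟩ := mem_pow_of_mem_adjoin h1 ha
    obtain ⟨s, hs⟩ := mem_pow_of_mem_adjoin h1 hb
    by_cases hb0 : b = 0
    · refine ⟨0, 1, one_ne_zero, by rw [pow_zero]; exact Submodule.one_le.1 le_rfl, ?_⟩
      rw [hab, hb0, div_zero, mul_zero]
      exact Submodule.zero_mem _
    · refine ⟨max r s, b, hb0, pow_le_pow_of_one h1 (le_max_right r s) hs, ?_⟩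
      rw [hab, mul_div_cancel₀ _ hb0]
      exact pow_le_pow_of_one h1 (le_max_left r s) hr
  obtain ⟨S, hS⟩ := hQ
  subst hS
  induction S using Finset.induction_on with
  | empty =>
    refine ⟨0, 1, one_ne_zero, by rw [pow_zero]; exact Submodule.one_le.1 le_rfl, fun q hq => ?_⟩
    rw [Finset.coe_empty, Submodule.span_empty, Submodule.mem_bot] at hq
    rw [hq, mul_zero]
    exact Submodule.zero_mem _
  | insert x S _ ih =>
    obtain ⟨r, c, hc, hcr, h⟩ := ih
    obtain ⟨s, d, hd, hd1, hd2⟩ := hone x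
    refine ⟨r + s, c * d, mul_ne_zero hc hd, by
      rw [pow_add]; exact Submodule.mul_mem_mul hcr hd1, fun q hq => ?_⟩
    rw [Finset.coe_insert, Submodule.mem_span_insert] at hq
    obtain ⟨a, q', hq', rfl⟩ := hq
    have h2 : c * d * (a • x + q') = a • (c * (d * x)) + (c * q') * d := by
      rw [Algebra.smul_def, Algebra.smul_def]
      ring
    rw [h2, pow_add]
    exact add_mem (Submodule.smul_mem _ _ (Submodule.mul_mem_mul hcr hd2))
      (Submodule.mul_mem_mul (h q' hq') hd1)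

/-- The conductor. -/
theorem exists_conductor [PerfectField k] (hK : (⊤ : IntermediateField k K).FG) (hL : L.FG)
    (h1 : (1 : K) ∈ L) (hbir : Bir L) : ∃ (s₀ : ℕ) (c : K), c ≠ 0 ∧ c ∈ L ^ s₀ ∧
      ∀ s : ℕ, ∀ f ∈ cl (L ^ s), c * f ∈ L ^ (s + s₀) := by
  classical
  have hLm : IsModel L := ⟨hL, (Submodule.ne_bot_iff L).2 ⟨1, h1, one_ne_zero⟩⟩
  obtain ⟨D, Q, hQ, -, hQ0, hN⟩ := TGh68.exists_HN_gen hK hLm (Bir.fin hbir)
  have hfg : (⨆ e ∈ Finset.range (D + 1), Q e : Submodule k K).FG :=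
    Submodule.fg_biSup _ _ fun e _ => hQ e
  obtain ⟨r, c, hc, hcr, h⟩ := exists_denom h1 hbir hfg
  refine ⟨r, c, hc, hcr, fun s f hf => ?_⟩
  rw [cl_pow hLm, hN s] at hf
  have h2 : (⨆ e ∈ Finset.range (s + 1), L ^ (s - e) * Q e : Submodule k K) ≤
      Submodule.comap (LinearMap.mulLeft k c) (L ^ (s + r)) := by
    refine iSup₂_le fun e he => Submodule.mul_le.2 fun a ha b hb => ?_
    show c * (a * b) ∈ L ^ (s + r)
    by_cases heD : D < e
    · rw [hQ0 e heD, Submodule.mem_bot] at hb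
      rw [hb, mul_zero, mul_zero]
      exact Submodule.zero_mem _
    · have h3 : c * b ∈ L ^ r := h b (Submodule.mem_iSup_of_mem e (Submodule.mem_iSup_of_mem
        (Finset.mem_range.2 (by omega)) hb))
      have h4 : c * (a * b) = a * (c * b) := by ring
      rw [h4]
      refine pow_le_pow_of_one h1 (a := s - e + r) (by omega) ?_
      rw [pow_add]
      exact Submodule.mul_mem_mul ha h3
  exact h2 hf

/-- **ROW CL.** -/
theorem clStmt (k K : Type u) [Field k] [Field K] [Algebra k K] : ClStmt k K := by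
  intro _ hK
  refine ⟨fun P hP => cl_fg hK hP, fun L hL h1 hbir => ?_⟩
  obtain ⟨s₀, c, hc, -, h⟩ := exists_conductor hK hL h1 hbir
  exact ⟨s₀, c, hc, h⟩

/-- `cl (L ^ (s + 1)) = L * cl (L ^ s)` for large `s`. -/
theorem exists_cl_succ [PerfectField k] (hK : (⊤ : IntermediateField k K).FG) (hL : IsModel L)
    (hfin : Fin' L) : ∃ D : ℕ, ∀ s : ℕ, D ≤ s → cl (L ^ (s + 1)) = L * cl (L ^ s) := by
  classical
  obtain ⟨D, Q, hQ, hQle, hQ0, hN⟩ := TGh68.exists_HN_gen hK hL hfin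
  refine ⟨D, fun s hs => ?_⟩
  rw [cl_pow hL, cl_pow hL]
  refine le_antisymm ?_ ?_
  · rw [hN (s + 1)]
    refine iSup₂_le fun e he => ?_
    by_cases heD : D < e
    · rw [hQ0 e heD, Submodule.mul_bot]
      exact bot_le
    · have h1 : s + 1 - e = (s - e) + 1 := by omega
      rw [h1, pow_succ', mul_assoc]
      refine Submodule.mul_le.2 fun a ha b hb => Submodule.mul_mem_mul ha ?_
      rw [hN s]
      exact Submodule.mem_iSup_of_mem e (Submodule.mem_iSup_of_mem
        (Finset.mem_range.2 (by omega)) hb)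
  · have h1 := TG.pow_mul_HN_le L 1 s
    rw [pow_one, Nat.add_comm] at h1
    exact h1

end Pool.Agent.TG9
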