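import Pool.Agent.Lib.TG_h81.Proj

/-!
# TANK G, row PD: residues at a prime divisor of affine space (helper68)
-/

set_option autoImplicit false

namespace Pool.Agent.TGh68

open MvPolynomial
open Pool.Agent.TG (Ov)
open Pool.Agent.LU2 (locV)

universe u

variable {k K : Type u} [Field k] [Field K] [Algebra k K] {v : ValuationSubring K}

theorem aeval_mem (hv : Ov k v) {ι : Type*} {y : ι → K} (hy : ∀ i, y i ∈ v)
    (p : MvPolynomial ι k) : aeval y p ∈ v := by
  induction p using MvPolynomial.induction_on with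
  | C a => rw [aeval_C]; exact hv a
  | add p q hp hq => rw [map_add]; exact add_mem hp hq
  | mul_X p i hp => rw [map_mul, aeval_X]; exact mul_mem hp (hy i)

theorem val_unit (hv : Ov k v) {c : k} (hc : c ≠ 0) : v.valuation (algebraMap k K c) = 1 := by
  have h1 : v.valuation (algebraMap k K c) ≤ 1 := (v.valuation_le_one_iff _).2 (hv c)
  have h2 : v.valuation (algebraMap k K c⁻¹) ≤ 1 := (v.valuation_le_one_iff _).2 (hv c⁻¹)
  have h3 : v.valuation (algebraMap k K c) * v.valuation (algebraMap k K c⁻¹) = 1 := by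
    rw [← map_mul, ← map_mul, mul_inv_cancel₀ hc, map_one, map_one]
  refine le_antisymm h1 ?_
  rw [← h3]
  calc v.valuation (algebraMap k K c) * v.valuation (algebraMap k K c⁻¹)
      ≤ v.valuation (algebraMap k K c) * 1 := by gcongr
    _ = _ := mul_one _

/-- The centre of `v` on affine space is a hypersurface, so it does not contain the polynomials
which do not involve a suitable variable. -/
theorem exists_var_of_centre (hv : Ov k v) {ι : Type*} {y : ι → K}
    (hind : AlgebraicIndependent k y) (hy : ∀ i, y i ∈ v)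
    (hc : ∀ p q : MvPolynomial ι k, q ≠ 0 → aeval y p / aeval y q ∈ v →
      ∃ a s : MvPolynomial ι k, v.valuation (aeval y s) = 1 ∧
        aeval y p / aeval y q = aeval y a / aeval y s)
    (hne : ∃ s : MvPolynomial ι k, s ≠ 0 ∧ v.valuation (aeval y s) < 1) :
    ∃ i, ∀ Q : MvPolynomial ι k, Q ≠ 0 → i ∉ Q.vars → v.valuation (aeval y Q) = 1 := by
  classical
  have hinj : Function.Injective (aeval y : MvPolynomial ι k →ₐ[k] K) := hind
  have h0 : ∀ p : MvPolynomial ι k, p ≠ 0 → aeval y p ≠ 0 := fun p hp h =>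
    hp ((map_eq_zero_iff _ hinj).1 h)
  have hle : ∀ p : MvPolynomial ι k, v.valuation (aeval y p) ≤ 1 := fun p =>
    (v.valuation_le_one_iff _).2 (aeval_mem hv hy p)
  -- a prime in the centre
  have hprime : ∀ s : MvPolynomial ι k, s = 0 ∨ v.valuation (aeval y s) = 1 ∨
      ∃ π : MvPolynomial ι k, Prime π ∧ v.valuation (aeval y π) < 1 := by
    intro s
    induction s using UniqueFactorizationMonoid.induction_on_prime with
    | h₁ => exact Or.inl rfl
    | h₂ x hx =>
      refine Or.inr (Or.inl ?_)
      obtain ⟨c, hc, rfl⟩ := MvPolynomial.isUnit_iff_eq_C_of_isReduced.1 hx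
      rw [aeval_C]
      exact val_unit hv hc.ne_zero
    | h₃ a p _ hp ih =>
      rcases ih with rfl | ih | ih
      · exact Or.inl (mul_zero _)
      · rcases (hle p).lt_or_eq with h1 | h1
        · exact Or.inr (Or.inr ⟨p, hp, h1⟩)
        · exact Or.inr (Or.inl (by rw [map_mul, map_mul, h1, ih, one_mul]))
      · exact Or.inr (Or.inr ih)
  obtain ⟨s, hs0, hs⟩ := hne
  obtain ⟨π, hπ, hπv⟩ : ∃ π : MvPolynomial ι k, Prime π ∧ v.valuation (aeval y π) < 1 := by
    rcases hprime s with h | h | h
    · exact absurd h hs0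
    · exact absurd h hs.ne
    · exact h
  have hπ0 := h0 π hπ.ne_zero
  -- every polynomial in the centre is divisible by `π`
  have hdvd : ∀ q : MvPolynomial ι k, v.valuation (aeval y q) < 1 → π ∣ q := by
    intro q hq
    by_cases hq0 : q = 0
    · rw [hq0]
      exact dvd_zero _
    have hq0' := h0 q hq0
    have hs1 : ∀ s : MvPolynomial ι k, v.valuation (aeval y s) = 1 → ¬ π ∣ s := by
      rintro s hs ⟨r, rfl⟩
      rw [map_mul, map_mul] at hs
      have h1 : v.valuation (aeval y π) * v.valuation (aeval y r) < 1 := by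
        calc v.valuation (aeval y π) * v.valuation (aeval y r)
            ≤ v.valuation (aeval y π) * 1 := by gcongr; exact hle r
          _ < 1 := by rw [mul_one]; exact hπv
      exact absurd hs h1.ne
    rcases v.mem_or_inv_mem (aeval y q / aeval y π) with h | h
    · obtain ⟨a, s, hs, has⟩ := hc q π hπ.ne_zero h
      have hs0 : aeval y s ≠ 0 := by
        intro h1
        rw [h1, map_zero] at hs
        exact zero_ne_one hs
      rw [div_eq_div_iff hπ0 hs0, ← map_mul, ← map_mul] at has
      have h2 : π ∣ q * s := ⟨a, by rw [hinj has]; ring⟩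
      exact (hπ.dvd_or_dvd h2).resolve_right (hs1 s hs)
    · rw [inv_div] at h
      obtain ⟨a, s, hs, has⟩ := hc π q hq0 h
      have hs0 : aeval y s ≠ 0 := by
        intro h1
        rw [h1, map_zero] at hs
        exact zero_ne_one hs
      rw [div_eq_div_iff hq0' hs0, ← map_mul, ← map_mul] at has
      have h2 : π ∣ a * q := ⟨s, (hinj has).symm⟩
      rcases hπ.dvd_or_dvd h2 with h3 | h3
      · exfalso
        obtain ⟨r, rfl⟩ := h3
        have h4 : π * s = π * (r * q) := by rw [hinj has]; ring
        have h5 := mul_left_cancel₀ hπ.ne_zero h4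
        rw [h5, map_mul, map_mul] at hs
        have h6 : v.valuation (aeval y r) * v.valuation (aeval y q) < 1 := by
          calc v.valuation (aeval y r) * v.valuation (aeval y q)
              ≤ 1 * v.valuation (aeval y q) := by gcongr; exact hle r
            _ < 1 := by rw [one_mul]; exact hq
        exact absurd hs h6.ne
      · exact h3
  obtain ⟨i, hi⟩ : ∃ i, i ∈ π.vars := by
    by_contra hcon
    push Not at hcon
    have h2 : π.vars = ∅ := Finset.eq_empty_of_forall_notMem hcon
    rw [vars_eq_empty_iff_eq_C] at h2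
    apply hπ.not_unit
    rw [h2]
    refine (IsUnit.mk0 _ ?_).map C
    intro h0
    rw [h0, C_0] at h2
    exact hπ.ne_zero h2
  refine ⟨i, fun Q hQ hiQ => ?_⟩
  refine le_antisymm (hle Q) (not_lt.1 fun hlt => ?_)
  obtain ⟨R, hR⟩ := hdvd Q hlt
  have hR0 : R ≠ 0 := by
    rintro rfl
    exact hQ (by rw [hR, mul_zero])
  have h3 : degreeOf i Q = 0 := by
    by_contra h4
    rw [← Ne, ← mem_vars_iff_degreeOf_ne_zero] at h4
    exact hiQ h4
  have h4 := degreeOf_mul_eq (n := i) hπ.ne_zero hR0
  rw [← hR, h3] at h4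
  rw [mem_vars_iff_degreeOf_ne_zero] at hi
  omega

/-- **ROW PD.** At a prime divisor of the affine space the residues of `m` of the `m + 1`
coordinates `z, b` are algebraically independent over `k`. -/
theorem pdiv_exists_ind {m : ℕ} {b : Fin m → K} {z : K} (hind : AlgebraicIndependent k b)
    (htr : Transcendental (TG.LB k b) z) (h : TG.PDiv k b z v) :
    ∃ w : Fin m → K, (∀ i, w i ∈ insert z (Set.range b)) ∧
      ∀ P : MvPolynomial (Fin m) k, P ≠ 0 → v.valuation (aeval w P) = 1 := by
  classical
  let y : Option (Fin m) → K := fun o => o.elim z b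
  have hyind : AlgebraicIndependent k y := by
    refine (hind.option_iff_transcendental z).2 ?_
    intro hz
    apply htr
    have hle : Algebra.adjoin k (Set.range b) ≤ (TG.LB k b).toSubalgebra :=
      IntermediateField.algebra_adjoin_le_adjoin k _
    obtain ⟨p, hp, hpz⟩ := hz
    refine ⟨p.map (Subalgebra.inclusion hle).toRingHom,
      (Polynomial.map_ne_zero_iff (Subalgebra.inclusion_injective hle)).2 hp, ?_⟩
    rw [Polynomial.aeval_def, Polynomial.eval₂_map]
    exact hpz
  have hy : ∀ o, y o ∈ v := by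
    rintro (_ | i)
    · exact h.z_mem
    · exact h.b_mem i
  have hrange : insert z (Set.range b) = Set.range y := by
    ext x
    constructor
    · rintro (rfl | ⟨i, rfl⟩)
      · exact ⟨none, rfl⟩
      · exact ⟨some i, rfl⟩
    · rintro ⟨_ | i, rfl⟩
      · exact Or.inl rfl
      · exact Or.inr ⟨i, rfl⟩
  have hadj : ∀ x, x ∈ Algebra.adjoin k (insert z (Set.range b)) ↔
      ∃ p : MvPolynomial (Option (Fin m)) k, aeval y p = x := by
    intro x
    rw [hrange, Algebra.adjoin_range_eq_range_aeval]
    exact Iff.rfl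
  have hKB : ∀ p : MvPolynomial (Option (Fin m)) k, aeval y p ∈ TG.KB k b z := fun p =>
    IntermediateField.algebra_adjoin_le_adjoin k _ ((hadj _).2 ⟨p, rfl⟩)
  obtain ⟨i, hi⟩ := exists_var_of_centre h.ov hyind hy (fun p q hq hpq => by
    obtain ⟨a, ha, s, hs, hs1, has⟩ := h.centre _ (div_mem (hKB p) (hKB q)) hpq
    obtain ⟨a, rfl⟩ := (hadj a).1 ha
    obtain ⟨s, rfl⟩ := (hadj s).1 hs
    exact ⟨a, s, hs1, has⟩) (by
    obtain ⟨x, hx, hxv⟩ := h.ne
    obtain ⟨a, ha, s, hs, rfl⟩ := IntermediateField.mem_adjoin_iff_div.1 hx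
    obtain ⟨a, rfl⟩ := (hadj a).1 ha
    obtain ⟨s, rfl⟩ := (hadj s).1 hs
    refine ⟨s, ?_, ?_⟩
    · rintro rfl
      rw [map_zero, div_zero] at hxv
      exact hxv v.zero_mem
    · refine lt_of_le_of_ne ((v.valuation_le_one_iff _).2 (aeval_mem h.ov hy s)) fun h1 => ?_
      apply hxv
      have h2 : (aeval y s)⁻¹ ∈ v := by
        rw [← v.valuation_le_one_iff, map_inv₀, h1, inv_one]
      rw [div_eq_mul_inv]
      exact mul_mem (aeval_mem h.ov hy a) h2)
  rcases i with _ | j
  · refine ⟨b, fun i => Or.inr ⟨i, rfl⟩, fun P hP => ?_⟩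
    have h1 : aeval b P = aeval y (rename some P) := by
      rw [aeval_rename]; rfl
    rw [h1]
    refine hi _ (fun h2 => hP ((map_eq_zero_iff _ (rename_injective _
      (Option.some_injective _))).1 h2)) fun h3 => ?_
    obtain ⟨l, -, hl⟩ := mem_vars_rename _ _ h3
    exact absurd hl (Option.some_ne_none l)
  · let φ : Fin m → Option (Fin m) := fun l => if l = j then none else some l
    have hφ : Function.Injective φ := by
      intro a c hac
      simp only [φ] at hac
      split_ifs at hac with h1 h2 h2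
      · rw [h1, h2]
      · exact Option.some_injective _ hac
    refine ⟨y ∘ φ, fun i => by rw [hrange]; exact ⟨_, rfl⟩, fun P hP => ?_⟩
    have h1 : aeval (y ∘ φ) P = aeval y (rename φ P) := by
      rw [aeval_rename]
    rw [h1]
    refine hi _ (fun h2 => hP ((map_eq_zero_iff _ (rename_injective _ hφ)).1 h2)) fun h3 => ?_
    obtain ⟨l, -, hl⟩ := mem_vars_rename _ _ h3
    simp only [φ] at hl
    split_ifs at hl with h4
    · exact h4 (Option.some_injective _ hl)

end Pool.Agent.TGh68
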