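import Pool.Agent.Lib.TG9.Defs3
import Pool.Agent.Lib.TG_h68.PDivA
import Pool.Agent.Lib.TG_h63.Good

/-!
# TANK G, rows PD and LOC (helper68)
-/

set_option autoImplicit false

namespace Pool.Agent.TG9

open Pool.Agent.TG (Ov ZDim IsMin IsModel Bir ch chN LB KB PDiv)
open Pool.Agent.LU2 (locV le_locV locV_inv)

universe u

/-- **ROW PD.** -/
theorem pdStmt (k K : Type u) [Field k] [Field K] [Algebra k K] (m : ℕ) : PdStmt k K m := by
  intro b z hind htr v hv
  refine ⟨?_, TGh68.pdiv_exists_ind hind htr hv⟩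
  rintro rfl
  obtain ⟨x, -, hx⟩ := hv.ne
  exact hx trivial

/-- **ROW LOC.** -/
theorem locStmt (k K : Type u) [Field k] [Field K] [Algebra k K] (n : ℕ) : LocStmt k K n := by
  intro _ hn hn0 A hA hint hfrac v hv hAv ⟨w, hw, hwv⟩
  have hv0 : Ov k v := fun c => hAv _ (A.algebraMap_mem c)
  have hind : AlgebraicIndependent k w := by
    refine (injective_iff_map_eq_zero _).2 fun P hP => ?_
    by_contra h0
    have h1 := hwv P h0
    rw [hP, map_zero] at h1
    exact zero_ne_one h1
  obtain ⟨κ, hκ⟩ : ∃ κ : IntermediateField k K, κ = IntermediateField.adjoin k (Set.range w) :=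
    ⟨_, rfl⟩
  have hκl : ∀ c ∈ κ, c ∈ locV v A := by
    intro c hc
    rw [hκ] at hc
    obtain ⟨a, ha, s, hs, rfl⟩ := IntermediateField.mem_adjoin_iff_div.1 hc
    have hle : Algebra.adjoin k (Set.range w) ≤ locV v A := by
      refine Algebra.adjoin_le ?_
      rintro _ ⟨i, rfl⟩
      exact hw i
    have hs' := hs
    rw [Algebra.adjoin_range_eq_range_aeval] at hs'
    obtain ⟨Q, rfl⟩ := hs'
    by_cases hQ : Q = 0
    · have h1 : (MvPolynomial.aeval w).toRingHom Q = 0 := by rw [hQ]; exact map_zero _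
      rw [show (MvPolynomial.aeval w).toRingHom Q = (0 : K) from h1, div_zero]
      exact (locV v A).zero_mem
    · rw [div_eq_mul_inv]
      exact (locV v A).mul_mem (hle ha) (locV_inv (hle hs) (hwv Q hQ))
  have htr : Algebra.trdeg κ K ≤ 1 := by
    have h1 : Algebra.trdeg k κ + Algebra.trdeg κ K = Algebra.trdeg k K := trdeg_add_eq k κ
    have hwκ : ∀ i, w i ∈ κ := fun i => by
      rw [hκ]; exact IntermediateField.subset_adjoin _ _ ⟨i, rfl⟩
    have h2 : AlgebraicIndependent k (fun i => (⟨w i, hwκ i⟩ : κ)) :=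
      AlgebraicIndependent.of_comp κ.val (by exact hind)
    have h3 : ((n - 1 : ℕ) : Cardinal) ≤ Algebra.trdeg k κ := by
      have := h2.lift_cardinalMk_le_trdeg
      rw [Cardinal.mk_fin, Cardinal.lift_natCast] at this
      rwa [Cardinal.lift_id'] at this
    rw [hn] at h1
    have h4 : Algebra.trdeg κ K < Cardinal.aleph0 := by
      refine lt_of_le_of_lt ?_ (Cardinal.natCast_lt_aleph0 (n := n))
      rw [← h1]
      exact le_add_self
    have h5 : Algebra.trdeg k κ < Cardinal.aleph0 := by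
      refine lt_of_le_of_lt ?_ (Cardinal.natCast_lt_aleph0 (n := n))
      rw [← h1]
      exact le_self_add
    obtain ⟨a, ha⟩ := Cardinal.lt_aleph0.1 h4
    obtain ⟨c, hc⟩ := Cardinal.lt_aleph0.1 h5
    rw [ha, hc] at h1
    rw [hc] at h3
    rw [ha]
    have h6 : c + a = n := by exact_mod_cast h1
    have h7 : n - 1 ≤ c := by exact_mod_cast h3
    have h8 : a ≤ 1 := by omega
    exact_mod_cast h8
  have hncl : TG.ncl A = A := le_antisymm (fun x hx => hint x hx) (TG.le_ncl A)
  exact TG63.mem_locV_of_mem hA hncl hfrac hAv hv hκl htr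

end Pool.Agent.TG9
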