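import Mathlib

/-!
# TANK G: the field of fractions of `K[X]` is finitely generated (helper68)
-/

set_option autoImplicit false

namespace Pool.Agent.TGh68

open Polynomial

universe u

variable {k K : Type u} [Field k] [Field K] [Algebra k K]

/-- `K(X)` is a finitely generated field extension of `k` if `K` is. -/
theorem fracPoly_fg (hK : (⊤ : IntermediateField k K).FG) :
    (⊤ : IntermediateField k (FractionRing K[X])).FG := by
  classical
  obtain ⟨S, hS⟩ := hK
  let φ : K →ₐ[k] FractionRing K[X] :=
    (IsScalarTower.toAlgHom k K[X] (FractionRing K[X])).comp (IsScalarTower.toAlgHom k K K[X])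
  have hφ : ∀ x : K, φ x = algebraMap K[X] (FractionRing K[X]) (C x) := fun x => rfl
  refine ⟨S.image φ ∪ {algebraMap K[X] (FractionRing K[X]) X}, ?_⟩
  obtain ⟨E, hE⟩ : ∃ E : IntermediateField k (FractionRing K[X]), E =
    IntermediateField.adjoin k ((S.image φ ∪ {algebraMap K[X] (FractionRing K[X]) X} : Finset _) :
      Set (FractionRing K[X])) := ⟨_, rfl⟩
  rw [← hE]
  have h1 : ∀ x : K, φ x ∈ E := by
    have h2 : (⊤ : IntermediateField k K) ≤ E.comap φ := by
      rw [← hS, IntermediateField.adjoin_le_iff]
      intro x hx
      show φ x ∈ E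
      rw [hE]
      refine IntermediateField.subset_adjoin _ _ (Finset.mem_coe.2 (Finset.mem_union_left _ ?_))
      exact Finset.mem_image_of_mem _ hx
    exact fun x => h2 (by trivial)
  have hX : algebraMap K[X] (FractionRing K[X]) X ∈ E := by
    rw [hE]
    refine IntermediateField.subset_adjoin _ _ (Finset.mem_coe.2 (Finset.mem_union_right _ ?_))
    exact Finset.mem_singleton_self _
  have hp : ∀ p : K[X], algebraMap K[X] (FractionRing K[X]) p ∈ E := by
    intro p
    induction p using Polynomial.induction_on' with
    | add p q hp hq => rw [map_add]; exact add_mem hp hq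
    | monomial n a =>
      rw [← C_mul_X_pow_eq_monomial, map_mul, map_pow]
      exact mul_mem (h1 a) (pow_mem hX n)
  rw [eq_top_iff]
  intro f _
  obtain ⟨a, b, -, rfl⟩ := IsFractionRing.div_surjective (A := K[X]) f
  exact div_mem (hp a) (hp b)

end Pool.Agent.TGh68
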