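import Pool.Agent.Lib.TG_h68.HNBasic
import Pool.Agent.Lib.TG_h68.ConeFG

/-!
# TANK G: finiteness of the graded normalisation (helper68)

The cone ring `k[w X : w ∈ W] ⊆ K[X]`, its integral closure, and `H_N(W)`.
-/

set_option autoImplicit false

namespace Pool.Agent.TGh68

open Polynomial
open Pool.Agent.TG (Ov ZDim IsMin ch chN IsModel Fin' HN)

universe u

variable {k K : Type u} [Field k] [Field K] [Algebra k K]

/-- The inclusion of `K[X]` into its field of fractions. -/
noncomputable def ψ (K : Type u) [Field K] : K[X] →+* FractionRing K[X] :=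
  algebraMap K[X] (FractionRing K[X])

theorem ψ_inj (K : Type u) [Field K] : Function.Injective (ψ K) :=
  IsFractionRing.injective K[X] (FractionRing K[X])

theorem ψ_alg (c : k) : algebraMap k (FractionRing K[X]) c = ψ K (C (algebraMap k K c)) := rfl

/-- The cone ring. -/
noncomputable def cone (W : Submodule k K) : Subalgebra k (FractionRing K[X]) :=
  Algebra.adjoin k ((fun w : K => ψ K (C w * X)) '' (W : Set K))

theorem mem_cone_gen {W : Submodule k K} {w : K} (hw : w ∈ W) : ψ K (C w * X) ∈ cone W :=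
  Algebra.subset_adjoin ⟨w, hw, rfl⟩

theorem cone_coeff {W : Submodule k K} {a : FractionRing K[X]} (ha : a ∈ cone W) :
    ∃ p : K[X], ψ K p = a ∧ ∀ N, p.coeff N ∈ W ^ N := by
  classical
  refine Algebra.adjoin_induction (R := k) (s := (fun w : K => ψ K (C w * X)) '' (W : Set K))
    (p := fun a _ => ∃ p : K[X], ψ K p = a ∧ ∀ N, p.coeff N ∈ W ^ N) ?_ ?_ ?_ ?_ ha
  · rintro _ ⟨w, hw, rfl⟩
    refine ⟨C w * X, rfl, fun N => ?_⟩
    rw [coeff_C_mul, coeff_X]
    split_ifs with h
    · rw [← h, pow_one, mul_one]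
      exact hw
    · rw [mul_zero]
      exact Submodule.zero_mem _
  · intro c
    refine ⟨C (algebraMap k K c), rfl, fun N => ?_⟩
    rw [coeff_C]
    split_ifs with h
    · rw [h, pow_zero]
      exact Submodule.mem_one.2 ⟨c, rfl⟩
    · exact Submodule.zero_mem _
  · rintro x y _ _ ⟨p, rfl, hp⟩ ⟨q, rfl, hq⟩
    refine ⟨p + q, map_add _ _ _, fun N => ?_⟩
    rw [coeff_add]
    exact add_mem (hp N) (hq N)
  · rintro x y _ _ ⟨p, rfl, hp⟩ ⟨q, rfl, hq⟩
    refine ⟨p * q, map_mul _ _ _, fun N => ?_⟩
    rw [coeff_mul]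
    refine Submodule.sum_mem _ fun ij hij => ?_
    rw [← Finset.HasAntidiagonal.mem_antidiagonal.1 hij, pow_add]
    exact Submodule.mul_mem_mul (hp _) (hq _)

/-- `W ^ N X ^ N` lies in the cone ring. -/
theorem mem_cone_pow {W : Submodule k K} {N : ℕ} {w : K} (hw : w ∈ W ^ N) :
    ψ K (C w * X ^ N) ∈ cone W := by
  induction N generalizing w with
  | zero =>
    rw [pow_zero] at hw
    obtain ⟨c, rfl⟩ := Submodule.mem_one.1 hw
    rw [pow_zero, mul_one, ← ψ_alg]
    exact (cone W).algebraMap_mem c
  | succ N ih =>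
    rw [pow_succ] at hw
    refine Submodule.mul_induction_on hw (fun a ha b hb => ?_) (fun a b ha hb => ?_)
    · have h1 : (C (a * b) * X ^ (N + 1) : K[X]) = (C a * X ^ N) * (C b * X) := by
        rw [map_mul, pow_succ]; ring
      rw [h1, map_mul]
      exact (cone W).mul_mem (ih ha) (mem_cone_gen hb)
    · rw [map_add, add_mul, map_add]
      exact (cone W).add_mem ha hb

theorem cone_fg {W : Submodule k K} (hW : W.FG) : (cone W).FG := by
  classical
  obtain ⟨S, hS⟩ := hW
  refine ⟨S.image fun w => ψ K (C w * X), le_antisymm (Algebra.adjoin_mono ?_)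
    (Algebra.adjoin_le ?_)⟩
  · intro x hx
    obtain ⟨w, hw, rfl⟩ := Finset.mem_image.1 (Finset.mem_coe.1 hx)
    exact ⟨w, by rw [← hS]; exact Submodule.subset_span (Finset.mem_coe.2 hw), rfl⟩
  · obtain ⟨B, hB⟩ : ∃ B : Subalgebra k (FractionRing K[X]), B = Algebra.adjoin k
      ((S.image fun w => ψ K (C w * X) : Finset _) : Set (FractionRing K[X])) := ⟨_, rfl⟩
    rw [← hB]
    have key : ∀ w ∈ Submodule.span k (S : Set K), ψ K (C w * X) ∈ B := by
      intro w hw
      induction hw using Submodule.span_induction with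
      | mem w hw =>
        rw [hB]
        exact Algebra.subset_adjoin (Finset.mem_coe.2 (Finset.mem_image_of_mem _ hw))
      | zero => rw [map_zero, zero_mul, map_zero]; exact B.zero_mem
      | add a b _ _ ha hb =>
        rw [map_add, add_mul, map_add]
        exact B.add_mem ha hb
      | smul c a _ ha =>
        have h1 : ψ K (C (c • a) * X) = algebraMap k (FractionRing K[X]) c * ψ K (C a * X) := by
          rw [ψ_alg, ← map_mul (ψ K), Algebra.smul_def, map_mul C, mul_assoc]
        rw [h1]
        exact B.mul_mem (B.algebraMap_mem c) ha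
    rintro _ ⟨w, hw, rfl⟩
    exact key w (by rw [hS]; exact hw)

/-- `K(X)` is algebraic over the cone ring. -/
theorem cone_algebraic {W : Submodule k K} (hW : IsModel W) (hfin : Fin' W)
    (x : FractionRing K[X]) : IsAlgebraic (cone W) x := by
  classical
  obtain ⟨w₀, hw₀, hw0⟩ := (Submodule.ne_bot_iff W).1 hW.ne
  obtain ⟨F, hF⟩ : ∃ F : IntermediateField k (FractionRing K[X]), F =
    IntermediateField.adjoin k (cone W : Set (FractionRing K[X])) := ⟨_, rfl⟩
  have hle : cone W ≤ F.toSubalgebra := fun a ha => by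
    rw [hF]; exact IntermediateField.subset_adjoin _ _ ha
  have hX0 : ψ K (X : K[X]) ≠ 0 := fun h => X_ne_zero ((map_eq_zero_iff _ (ψ_inj K)).1 h)
  have hC0 : ∀ w : K, w ≠ 0 → ψ K (C w) ≠ 0 := fun w hw h => hw
    (C_eq_zero.1 ((map_eq_zero_iff _ (ψ_inj K)).1 h))
  -- the charts
  have hch : ∀ a ∈ ch W w₀, ψ K (C a) ∈ F := by
    let φ : K →ₐ[k] FractionRing K[X] :=
      (IsScalarTower.toAlgHom k K[X] (FractionRing K[X])).comp (IsScalarTower.toAlgHom k K K[X])
    have h1 : ch W w₀ ≤ F.toSubalgebra.comap φ := by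
      rw [TG.ch_le_iff]
      intro g hg
      show ψ K (C (g / w₀)) ∈ F
      have h2 : ψ K (C (g / w₀)) = ψ K (C g * X) / ψ K (C w₀ * X) := by
        rw [map_mul, map_mul, mul_div_mul_right _ _ hX0]
        exact map_div₀ ((ψ K).comp C) g w₀
      rw [h2]
      exact div_mem (hle (mem_cone_gen hg)) (hle (mem_cone_gen hw₀))
    exact fun a ha => h1 ha
  let j : ch W w₀ →+* F := ((ψ K).comp (C.comp (ch W w₀).val.toRingHom)).codRestrict F
    (fun a => hch a a.2)
  have hjinj : Function.Injective j := by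
    intro a b hab
    have h1 : ψ K (C (a : K)) = ψ K (C (b : K)) := congrArg Subtype.val hab
    exact Subtype.ext (C_injective (ψ_inj K h1))
  have hK : ∀ y : K, IsAlgebraic F (ψ K (C y)) := by
    intro y
    obtain ⟨P, hP0, hP⟩ := hfin.isAlgebraic hw0 (x := y) (f := w₀)
    refine ⟨P.map j, (Polynomial.map_ne_zero_iff hjinj).2 hP0, ?_⟩
    rw [aeval_def, eval₂_map]
    have h1 : (algebraMap F (FractionRing K[X])).comp j =
        ((ψ K).comp C).comp (algebraMap (ch W w₀) K) := rfl
    rw [h1, ← RingHom.comp_apply, ← hom_eval₂, ← aeval_def, hP, map_zero]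
  have hXalg : IsAlgebraic F (ψ K (X : K[X])) := by
    have h1 : ψ K (X : K[X]) = ψ K (C w₀ * X) * (ψ K (C w₀))⁻¹ := by
      rw [map_mul, mul_comm (ψ K (C w₀)), mul_assoc, mul_inv_cancel₀ (hC0 _ hw0), mul_one]
    rw [h1]
    exact (isAlgebraic_algebraMap (A := FractionRing K[X])
      (⟨_, hle (mem_cone_gen hw₀)⟩ : F)).mul (hK w₀).inv
  have hp : ∀ p : K[X], IsAlgebraic F (ψ K p) := by
    intro p
    induction p using Polynomial.induction_on' with
    | add p q hp hq => rw [map_add]; exact hp.add hq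
    | monomial n a =>
      rw [← C_mul_X_pow_eq_monomial, map_mul, map_pow]
      exact (hK a).mul (hXalg.pow n)
  have hx : IsAlgebraic F x := by
    obtain ⟨a, b, -, rfl⟩ := IsFractionRing.div_surjective (A := K[X]) x
    rw [div_eq_mul_inv]
    exact (hp a).mul (hp b).inv
  let _ : Algebra (cone W) F := (Subalgebra.inclusion hle).toRingHom.toAlgebra
  have htow : IsScalarTower (cone W) F (FractionRing K[X]) :=
    IsScalarTower.of_algebraMap_eq fun _ => rfl
  have halg : Algebra.IsAlgebraic (cone W) F := by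
    refine ⟨fun y => ?_⟩
    have hy : (y : FractionRing K[X]) ∈ IntermediateField.adjoin k
      (cone W : Set (FractionRing K[X])) := by rw [← hF]; exact y.2
    obtain ⟨a, ha, b, hb, hab⟩ := IntermediateField.mem_adjoin_iff_div.1 hy
    rw [Algebra.adjoin_eq] at ha hb
    have h2 : IsAlgebraic (cone W) (y : FractionRing K[X]) := by
      rw [hab, div_eq_mul_inv]
      exact (isAlgebraic_algebraMap (A := FractionRing K[X]) (⟨a, ha⟩ : cone W)).mul
        (isAlgebraic_algebraMap (A := FractionRing K[X]) (⟨b, hb⟩ : cone W)).inv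
    exact (isAlgebraic_algebraMap_iff (algebraMap F (FractionRing K[X])).injective).1 h2
  exact hx.restrictScalars (cone W)

/-- The polynomials with coefficients in `H_N(W)`, as a module over the cone ring. -/
noncomputable def grM (W : Submodule k K) : Submodule (cone W) (FractionRing K[X]) where
  carrier := {x | ∃ p : K[X], ψ K p = x ∧ ∀ N, p.coeff N ∈ HN W N}
  add_mem' := by
    rintro _ _ ⟨p, rfl, hp⟩ ⟨q, rfl, hq⟩
    exact ⟨p + q, map_add _ _ _, fun N => by rw [coeff_add]; exact add_mem (hp N) (hq N)⟩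
  zero_mem' := ⟨0, map_zero _, fun N => by rw [coeff_zero]; exact Submodule.zero_mem _⟩
  smul_mem' := by
    rintro a _ ⟨p, rfl, hp⟩
    obtain ⟨q, hq, hqc⟩ := cone_coeff a.2
    refine ⟨q * p, ?_, fun N => ?_⟩
    · rw [map_mul, hq]; rfl
    · rw [coeff_mul]
      refine Submodule.sum_mem _ fun ij hij => ?_
      rw [← Finset.HasAntidiagonal.mem_antidiagonal.1 hij]
      exact TG.pow_mul_HN_le W _ _ (Submodule.mul_mem_mul (hqc _) (hp _))

/-- The elements of `grM` are integral over the cone ring. -/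
theorem grM_integral {W : Submodule k K} (hW : IsModel W) {x : FractionRing K[X]}
    (hx : x ∈ grM W) : IsIntegral (cone W) x := by
  obtain ⟨p, rfl, hp⟩ := hx
  refine TG.isIntegral_of_forall_mem (cone W) fun U hU => ?_
  let V : ValuationSubring K := U.comap ((ψ K).comp C)
  have hmem : ∀ a : K, a ∈ V ↔ ψ K (C a) ∈ U := fun a => Iff.rfl
  have hV : Ov k V := fun c => by
    rw [hmem, ← ψ_alg]
    exact hU _ ((cone W).algebraMap_mem c)
  obtain ⟨w, hw⟩ := TG.exists_isMin hV hW
  rw [p.as_sum_range_C_mul_X_pow, map_sum]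
  refine sum_mem fun N _ => ?_
  have h1 : ψ K (C (p.coeff N / w ^ N)) ∈ U := hp N V hV w hw
  have h2 : ψ K (C w * X) ∈ U := hU _ (mem_cone_gen hw.mem)
  have h3 : (C (p.coeff N) * X ^ N : K[X]) = C (p.coeff N / w ^ N) * (C w * X) ^ N := by
    rw [mul_pow, ← mul_assoc, ← map_pow, ← map_mul, div_mul_cancel₀ _ (pow_ne_zero N hw.ne)]
  rw [h3, map_mul, map_pow]
  exact mul_mem h1 (pow_mem h2 N)

theorem grM_fg [PerfectField k] (hK : (⊤ : IntermediateField k K).FG) {W : Submodule k K}
    (hW : IsModel W) (hfin : Fin' W) : (grM W).FG := by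
  have h1 := finite_integralClosure (fracPoly_fg hK) (cone W) (cone_fg hW.fg)
    (cone_algebraic hW hfin)
  haveI : IsNoetherianRing (cone W) := isNoetherianRing_of_fg (cone_fg hW.fg)
  haveI : IsNoetherian (cone W) (integralClosure (cone W) (FractionRing K[X])) :=
    isNoetherian_of_isNoetherianRing_of_finite (cone W)
      (integralClosure (cone W) (FractionRing K[X]))
  let ι : integralClosure (cone W) (FractionRing K[X]) →ₗ[cone W] FractionRing K[X] :=
    (integralClosure (cone W) (FractionRing K[X])).val.toLinearMap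
  have h2 : grM W = ((grM W).comap ι).map ι := by
    refine le_antisymm (fun x hx => ?_) (Submodule.map_comap_le _ _)
    exact ⟨⟨x, grM_integral hW hx⟩, hx, rfl⟩
  rw [h2]
  exact (IsNoetherian.noetherian _).map _

/-- **The graded normalisation is a finite module.** -/
theorem exists_HN_gen [PerfectField k] (hK : (⊤ : IntermediateField k K).FG) {W : Submodule k K}
    (hW : IsModel W) (hfin : Fin' W) : ∃ (D : ℕ) (Q : ℕ → Submodule k K), (∀ e, (Q e).FG) ∧
      (∀ e, Q e ≤ HN W e) ∧ (∀ e, D < e → Q e = ⊥) ∧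
      ∀ N, HN W N = ⨆ e ∈ Finset.range (N + 1), W ^ (N - e) * Q e := by
  classical
  obtain ⟨T, hT⟩ := grM_fg hK hW hfin
  have hTp : ∀ t : FractionRing K[X], ∃ p : K[X], t ∈ T → ψ K p = t ∧
      ∀ N, p.coeff N ∈ HN W N := by
    intro t
    by_cases ht : t ∈ T
    · have h1 : t ∈ grM W := by rw [← hT]; exact Submodule.subset_span (Finset.mem_coe.2 ht)
      obtain ⟨p, hp, hp'⟩ := h1
      exact ⟨p, fun _ => ⟨hp, hp'⟩⟩
    · exact ⟨0, fun h => absurd h ht⟩
  choose p hp using hTp
  let Q : ℕ → Submodule k K := fun e =>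
    Submodule.span k ((T.image fun t => (p t).coeff e : Finset K) : Set K)
  have hQ : ∀ e, Q e ≤ HN W e := by
    intro e
    refine Submodule.span_le.2 fun x hx => ?_
    obtain ⟨t, ht, rfl⟩ := Finset.mem_image.1 (Finset.mem_coe.1 hx)
    exact (hp t ht).2 e
  refine ⟨∑ t ∈ T, (p t).natDegree, Q, fun e => ⟨_, rfl⟩, hQ, fun e he => ?_, fun N => ?_⟩
  · rw [Submodule.span_eq_bot]
    intro x hx
    obtain ⟨t, ht, rfl⟩ := Finset.mem_image.1 (Finset.mem_coe.1 hx)
    refine coeff_eq_zero_of_natDegree_lt (lt_of_le_of_lt ?_ he)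
    exact Finset.single_le_sum (f := fun t => (p t).natDegree) (fun _ _ => Nat.zero_le _) ht
  · refine le_antisymm (fun f hf => ?_) (iSup₂_le fun e he => ?_)
    · have h1 : ψ K (C f * X ^ N) ∈ grM W := by
        refine ⟨C f * X ^ N, rfl, fun M => ?_⟩
        rw [coeff_C_mul_X_pow]
        split_ifs with h
        · rw [h]; exact hf
        · exact Submodule.zero_mem _
      rw [← hT] at h1
      have h2 : ∀ x ∈ Submodule.span (cone W) (T : Set (FractionRing K[X])),
          ∃ q : K[X], ψ K q = x ∧ ∀ M, q.coeff M ∈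
            (⨆ e ∈ Finset.range (M + 1), W ^ (M - e) * Q e : Submodule k K) := by
        intro x hx
        induction hx using Submodule.span_induction with
        | mem t ht =>
          refine ⟨p t, (hp t ht).1, fun M => ?_⟩
          refine Submodule.mem_iSup_of_mem M (Submodule.mem_iSup_of_mem
            (Finset.self_mem_range_succ M) ?_)
          rw [Nat.sub_self, pow_zero, one_mul]
          exact Submodule.subset_span (Finset.mem_coe.2 (Finset.mem_image_of_mem _ ht))
        | zero =>
          exact ⟨0, map_zero _, fun M => by rw [coeff_zero]; exact Submodule.zero_mem _⟩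
        | add x y _ _ hx hy =>
          obtain ⟨q, rfl, hq⟩ := hx
          obtain ⟨r, rfl, hr⟩ := hy
          exact ⟨q + r, map_add _ _ _, fun M => by
            rw [coeff_add]; exact add_mem (hq M) (hr M)⟩
        | smul a x _ hx =>
          obtain ⟨q, rfl, hq⟩ := hx
          obtain ⟨r, hr, hrc⟩ := cone_coeff a.2
          refine ⟨r * q, by rw [map_mul, hr]; rfl, fun M => ?_⟩
          rw [coeff_mul]
          refine Submodule.sum_mem _ fun ij hij => ?_
          have hij' := Finset.HasAntidiagonal.mem_antidiagonal.1 hij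
          have h3 : (⨆ e ∈ Finset.range (ij.2 + 1), W ^ (ij.2 - e) * Q e : Submodule k K) ≤
              Submodule.comap (LinearMap.mulLeft k (r.coeff ij.1))
                (⨆ e ∈ Finset.range (M + 1), W ^ (M - e) * Q e : Submodule k K) := by
            refine iSup₂_le fun e he => ?_
            have he' : e ≤ ij.2 := Nat.lt_succ_iff.1 (Finset.mem_range.1 he)
            refine Submodule.mul_le.2 fun a ha b hb => ?_
            show r.coeff ij.1 * (a * b) ∈
              (⨆ e ∈ Finset.range (M + 1), W ^ (M - e) * Q e : Submodule k K)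
            refine Submodule.mem_iSup_of_mem e (Submodule.mem_iSup_of_mem
              (Finset.mem_range.2 (by omega)) ?_)
            have h4 : M - e = ij.1 + (ij.2 - e) := by omega
            rw [← mul_assoc, h4, pow_add]
            exact Submodule.mul_mem_mul (Submodule.mul_mem_mul (hrc _) ha) hb
          exact h3 (hq ij.2)
      obtain ⟨q, hq, hqc⟩ := h2 _ h1
      have h5 : q = C f * X ^ N := ψ_inj K hq
      have h6 := hqc N
      rwa [h5, coeff_C_mul_X_pow, if_pos rfl] at h6
    · have he' : e ≤ N := Nat.lt_succ_iff.1 (Finset.mem_range.1 he)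
      refine Submodule.mul_le.2 fun a ha b hb => ?_
      have h1 := TG.pow_mul_HN_le W (N - e) e (Submodule.mul_mem_mul ha (hQ e hb))
      rwa [Nat.sub_add_cancel he'] at h1

end Pool.Agent.TGh68
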