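import Pool.Agent.Lib.TG_h68.DatA

/-!
# TANK G, backup track BC9: row DAT (the data of a normal affine algebra)
-/

set_option autoImplicit false

namespace Pool.Agent.TG9

open Pool.Agent.TG (Ov Bir Wd Walt wmat wrow)
open Pool.Agent.LU2 (locV)
open Pool.Agent.TGJ (Dual)
open Pool.Agent.TGBC30 (qmap qmap_apply qmap_eq wd_mem_pow wd_dual exists_common_denom
  exists_mem_pow exists_mem_pow_finset pow_le_pow_right one_mem_pow)
open Module

universe u

variable {k K : Type u} [Field k] [Field K] [Algebra k K] {n : ℕ}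

namespace DatAux

/-- The determinant is a unit. -/
theorem det_of_qmap {D : Fin n → Derivation k K K} {τ' : K} {g : Fin (n + 1) → K}
    (hq : qmap D τ' g ≠ 0) (h0 : g 0 ≠ 0) :
    (Matrix.of fun j l : Fin n => D l (g j.succ / g 0)).det ≠ 0 := by
  rw [qmap_eq D τ' g h0] at hq
  exact right_ne_zero_of_mul (right_ne_zero_of_mul hq)

/-- Row DAT, the part (der). -/
theorem der_of_qmap [Algebra.EssFiniteType k K] (hn : Algebra.trdeg k K = n) {x : Fin n → K}
    (hsep : Algebra.IsSeparable (IntermediateField.adjoin k (Set.range x)) K)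
    {D : Fin n → Derivation k K K} (hD : Dual x D) {τ : K} {e : ℕ} {v : ValuationSubring K}
    (hDv : ∀ l, ∀ x ∈ v, D l x ∈ v) (hτ : v.valuation τ = 1) {g : Fin (n + 1) → K}
    (hg : ∀ j, g j ∈ v) (hg0 : v.valuation (g 0) = 1)
    (hq : v.valuation (qmap D (τ ^ e) g) = 1) (d : Derivation k K K)
    (hd : ∀ j, d (g j / g 0) ∈ v) : ∀ y ∈ v, d y ∈ v := by
  classical
  have hg00 : g 0 ≠ 0 := by
    intro h
    rw [h, map_zero] at hg0
    exact zero_ne_one hg0
  have hinv : (g 0)⁻¹ ∈ v := by
    rw [← v.valuation_le_one_iff, map_inv₀, hg0, inv_one]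
  obtain ⟨h, hh⟩ : ∃ h : Fin n → K, h = fun j => g j.succ / g 0 := ⟨_, rfl⟩
  have hhj : ∀ j, h j = g j.succ / g 0 := fun j => by rw [hh]
  have hdet1 : v.valuation (Matrix.of fun j l : Fin n => D l (h j)).det = 1 := by
    rw [qmap_eq D (τ ^ e) g hg00, map_mul, map_mul, map_pow, map_pow, hτ, hg0, one_pow, one_pow,
      one_mul, one_mul] at hq
    rw [hh]
    exact hq
  have hdet0 : (Matrix.of fun j l : Fin n => D l (h j)).det ≠ 0 := by
    intro h0
    rw [h0, map_zero] at hdet1
    exact zero_ne_one hdet1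
  obtain ⟨E, hE1, hE2⟩ := TG.exists_dual D h hdet0
  have hEv := hE2 v hDv (fun j => by
    rw [hhj, div_eq_mul_inv]
    exact v.mul_mem _ _ (hg _) hinv) hdet1
  have hsep' := (TG.jac_ne_zero_iff D x hD.dual hsep h).1 hdet0
  obtain ⟨E', hE'⟩ := TGJ.exists_Dual (k := k) (K := K) n hn h hsep'
  have hEE : ∀ i y, E i y = E' i y := by
    intro i y
    rw [hE'.span (E i) y, Finset.sum_eq_single i]
    · rw [hE1, if_pos rfl, one_mul]
    · intro j _ hj
      rw [hE1, if_neg (Ne.symm hj), zero_mul]
    · intro h1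
      exact absurd (Finset.mem_univ _) h1
  intro y hy
  rw [hE'.span d y]
  refine v.toSubring.sum_mem fun j _ => v.mul_mem _ _ ?_ ?_
  · rw [hhj]
    exact hd _
  · rw [← hEE]
    exact hEv j y hy

/-- Row DAT, the part (sep). -/
theorem sep_of_qmap [Algebra.EssFiniteType k K] (hn : Algebra.trdeg k K = n) {x : Fin n → K}
    (hsep : Algebra.IsSeparable (IntermediateField.adjoin k (Set.range x)) K)
    {D : Fin n → Derivation k K K} (hD : Dual x D) {τ' : K} {g : Fin (n + 1) → K}
    (hq : qmap D τ' g ≠ 0) (h0 : g 0 ≠ 0) :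
    AlgebraicIndependent k (fun i : Fin n => g i.succ / g 0) ∧
      FiniteDimensional
        (IntermediateField.adjoin k (Set.range fun i : Fin n => g i.succ / g 0)) K ∧
      Algebra.IsSeparable
        (IntermediateField.adjoin k (Set.range fun i : Fin n => g i.succ / g 0)) K := by
  classical
  have hdet0 := det_of_qmap hq h0
  obtain ⟨t, ht⟩ : ∃ t : Fin n → K, t = fun j => g j.succ / g 0 := ⟨_, rfl⟩
  have hsep' : Algebra.IsSeparable (IntermediateField.adjoin k (Set.range t)) K := by
    refine (TG.jac_ne_zero_iff D x hD.dual hsep t).1 ?_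
    rw [ht]
    exact hdet0
  have h1 : Algebra.IsAlgebraic (IntermediateField.adjoin k (Set.range t)) K := inferInstance
  have hind : AlgebraicIndependent k t := by
    have h2 : Algebra.IsAlgebraic (Algebra.adjoin k (Set.range t)) K := by
      constructor
      intro g
      rw [← IntermediateField.isAlgebraic_adjoin_iff]
      exact h1.isAlgebraic g
    have h3 := Algebra.IsAlgebraic.isTranscendenceBasis_of_lift_le_trdeg_of_finite k t (by
      rw [hn, Cardinal.mk_fin, Cardinal.lift_natCast, Cardinal.lift_natCast])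
    exact h3.1
  have hfin : FiniteDimensional (IntermediateField.adjoin k (Set.range t)) K := by
    have h4 : Algebra.EssFiniteType (IntermediateField.adjoin k (Set.range t)) K :=
      Algebra.EssFiniteType.of_comp k _ K
    exact Algebra.finite_of_essFiniteType_of_isAlgebraic
  rw [ht] at hind hfin hsep'
  exact ⟨hind, hfin, hsep'⟩

end DatAux

open DatAux in
/-- **Row DAT.** -/
theorem datStmt (k K : Type u) [Field k] [Field K] [Algebra k K] (n : ℕ) : DatStmt k K n := by
  classical
  intro hcl hK hn hn0 A₀ hA₀ hint hfr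
  have hess : Algebra.EssFiniteType k K := IntermediateField.fg_top_iff.1 hK
  obtain ⟨x, -, hx, hsep, -, -, -, -⟩ := ALL83.exists_normal (k := k) (K := K) n hn
  obtain ⟨D, hD⟩ := TGJ.exists_Dual (k := k) (K := K) n hn x hsep
  obtain ⟨S, hS⟩ := id hA₀
  obtain ⟨b, hbA, hb0, hbx⟩ := exists_common_denom hfr (Finset.univ.image x)
  -- the linear system
  obtain ⟨S', hS'⟩ : ∃ S', S' = S ∪ Finset.univ.image (fun j => b * x j) ∪ {1, b} := ⟨_, rfl⟩
  have hS'B : ∀ a ∈ S', a ∈ A₀ := by
    intro a ha
    rw [hS', Finset.mem_union, Finset.mem_union, Finset.mem_image, Finset.mem_insert,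
      Finset.mem_singleton] at ha
    rcases ha with (ha | ⟨i, _, rfl⟩) | rfl | rfl
    · rw [← hS]; exact Algebra.subset_adjoin ha
    · exact hbx _ (Finset.mem_image_of_mem _ (Finset.mem_univ i))
    · exact A₀.one_mem
    · exact hbA
  have hSS' : ∀ a ∈ S, a ∈ S' := fun a ha => by
    rw [hS', Finset.mem_union, Finset.mem_union]; exact Or.inl (Or.inl ha)
  obtain ⟨L, hLdef⟩ : ∃ L : Submodule k K, L = Submodule.span k (S' : Set K) := ⟨_, rfl⟩
  have hLfg : L.FG := ⟨S', hLdef.symm⟩
  have hSL : ∀ a ∈ S', a ∈ L := fun a ha => by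
    rw [hLdef]
    exact Submodule.subset_span (Finset.mem_coe.2 ha)
  have h1L : (1 : K) ∈ L := hSL 1 (by
    rw [hS', Finset.mem_union, Finset.mem_insert]
    exact Or.inr (Or.inl rfl))
  have hbL : b ∈ L := hSL b (by
    rw [hS', Finset.mem_union, Finset.mem_insert, Finset.mem_singleton]
    exact Or.inr (Or.inr rfl))
  have hxL : ∀ j, b * x j ∈ L := fun j => hSL _ (by
    rw [hS', Finset.mem_union, Finset.mem_union]
    exact Or.inl (Or.inr (Finset.mem_image_of_mem _ (Finset.mem_univ j))))
  have hLA : ∀ a ∈ L, a ∈ A₀ := by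
    intro a ha
    have h1 : L ≤ A₀.toSubmodule := by
      rw [hLdef]
      exact Submodule.span_le.2 fun a ha => hS'B a ha
    exact h1 ha
  have hLA' : Algebra.adjoin k (L : Set K) = A₀ := by
    refine le_antisymm (Algebra.adjoin_le hLA) ?_
    rw [← hS]
    exact Algebra.adjoin_mono fun a ha => hSL a (hSS' a ha)
  -- the denominator
  obtain ⟨G, hG⟩ : ∃ G : Finset K, G = Finset.univ.biUnion (fun i : Fin n => S'.image (D i)) :=
    ⟨_, rfl⟩
  obtain ⟨τ, hτA, hτ0, hτG⟩ := exists_common_denom hfr G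
  have hDS : ∀ i, ∀ a ∈ S', D i a ∈ G := by
    intro i a ha
    rw [hG]
    exact Finset.mem_biUnion.2 ⟨i, Finset.mem_univ i, Finset.mem_image_of_mem _ ha⟩
  have hDL : ∀ i, ∀ a ∈ L, τ * D i a ∈ A₀ := by
    intro i a ha
    rw [hLdef] at ha
    induction ha using Submodule.span_induction with
    | mem a ha => exact hτG _ (hDS i a ha)
    | zero => rw [map_zero, mul_zero]; exact A₀.zero_mem
    | add a b _ _ ha hb => rw [map_add, mul_add]; exact A₀.add_mem ha hb
    | smul c a _ ha =>
      rw [Derivation.map_smul, mul_smul_comm]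
      exact A₀.smul_mem ha c
  have hDA : ∀ i, ∀ a ∈ A₀, τ * D i a ∈ A₀ := by
    intro i a ha
    rw [← hLA'] at ha
    induction ha using Algebra.adjoin_induction with
    | mem a ha => exact hDL i a ha
    | algebraMap c => rw [Derivation.map_algebraMap, mul_zero]; exact A₀.zero_mem
    | add a b _ _ ha hb => rw [map_add, mul_add]; exact A₀.add_mem ha hb
    | mul a b ha' hb' ha hb =>
      rw [hLA'] at ha' hb'
      rw [Derivation.leibniz, smul_eq_mul, smul_eq_mul]
      have h2 : τ * (a * D i b + b * D i a) = a * (τ * D i b) + b * (τ * D i a) := by ring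
      rw [h2]
      exact A₀.add_mem (A₀.mul_mem ha' hb) (A₀.mul_mem hb' ha)
  obtain ⟨e, he⟩ := exists_mem_pow h1L (a := τ) (by rw [hLA']; exact hτA)
  obtain ⟨e', he'⟩ := exists_mem_pow_finset h1L
    (Finset.univ.biUnion fun i : Fin n => S'.image fun a => τ * D i a) (by
      intro b hb
      obtain ⟨i, _, hb⟩ := Finset.mem_biUnion.1 hb
      obtain ⟨a, ha, rfl⟩ := Finset.mem_image.1 hb
      rw [hLA']
      exact hτG _ (hDS i a ha))
  have hDe : ∀ i, ∀ a ∈ L, τ * D i a ∈ L ^ e' := by
    intro i a ha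
    rw [hLdef] at ha
    induction ha using Submodule.span_induction with
    | mem a ha =>
      exact he' _ (Finset.mem_biUnion.2 ⟨i, Finset.mem_univ i, Finset.mem_image_of_mem _ ha⟩)
    | zero => rw [map_zero, mul_zero]; exact zero_mem _
    | add a b _ _ ha hb => rw [map_add, mul_add]; exact add_mem ha hb
    | smul c a _ ha =>
      rw [Derivation.map_smul, mul_smul_comm]
      exact Submodule.smul_mem _ c ha
  refine ⟨L, e + 1, τ, n * e', qmap D (τ ^ n), ⟨hLfg, h1L, ?_, hτ0,
    pow_le_pow_right h1L (Nat.le_succ e) he, ?_, fun M g hg => wd_mem_pow D h1L hDe M g hg, ?_,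
    fun i g => qmap_wr D (τ ^ n) i g⟩, hLA', ?_, ?_, fun s h hh f => qmap_jac D (τ ^ n) s h hh f⟩
  · -- birational
    rw [Bir, eq_top_iff]
    intro z _
    have h1 : ∀ a ∈ A₀, a ∈ IntermediateField.adjoin k {x : K | ∃ f ∈ L, ∃ g ∈ L, x = g / f} := by
      intro a ha
      rw [← hLA'] at ha
      have h2 : Algebra.adjoin k (L : Set K) ≤ (IntermediateField.adjoin k
          {x : K | ∃ f ∈ L, ∃ g ∈ L, x = g / f}).toSubalgebra := by
        refine Algebra.adjoin_le fun a ha => ?_
        exact IntermediateField.subset_adjoin _ _ ⟨1, h1L, a, ha, by rw [div_one]⟩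
      exact h2 ha
    obtain ⟨a, ha, b, hb, _, rfl⟩ := hfr z
    exact div_mem (h1 a ha) (h1 b hb)
  · -- the boundary
    intro V hV hmin
    have hτV : V.valuation τ ≠ 0 := (Valuation.ne_zero_iff _).2 hτ0
    have h1 : ∀ y ∈ L, y ∈ V := by
      intro y hy
      have h2 : τ * y ∈ L ^ (e + 1) := by
        rw [pow_succ]
        exact Submodule.mul_mem_mul he hy
      have h3 := hmin _ h2
      rw [map_mul] at h3
      rw [← V.valuation_le_one_iff]
      exact (mul_le_iff_le_one_right (zero_lt_iff.2 hτV)).1 h3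
    refine ⟨h1, le_antisymm ((V.valuation_le_one_iff _).2 ?_) ?_⟩
    · have h2 : ∀ a ∈ Algebra.adjoin k (L : Set K), a ∈ V := by
        intro a ha
        induction ha using Algebra.adjoin_induction with
        | mem a ha => exact h1 a ha
        | algebraMap c => exact hV c
        | add a b _ _ ha hb => exact V.add_mem _ _ ha hb
        | mul a b _ _ ha hb => exact V.mul_mem _ _ ha hb
      exact h2 τ (by rw [hLA']; exact hτA)
    · have h3 := hmin 1 (one_mem_pow h1L _)
      rwa [map_one] at h3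
  · -- `q ≠ 0`
    intro w hw
    refine ⟨fun j => (w * b) * (Fin.cons 1 x : Fin (n + 1) → K) j, fun j => ?_, ?_⟩
    · show (w * b) * (Fin.cons 1 x : Fin (n + 1) → K) j ∈ (k ∙ w) * L
      rw [mul_assoc]
      refine Submodule.mul_mem_mul (Submodule.mem_span_singleton_self w) ?_
      refine Fin.cases ?_ (fun l => ?_) j
      · rw [Fin.cons_zero, mul_one]; exact hbL
      · rw [Fin.cons_succ]; exact hxL l
    · rw [qmap_apply, wd_dual hD]
      exact mul_ne_zero (pow_ne_zero _ hτ0) (pow_ne_zero _ (mul_ne_zero hw hb0))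
  · intro v hAv hτ1 hloc g hg hg0 hq d hd
    exact der_of_qmap hn hsep hD (fun l => der_locV hAv hloc hτ1 (D l) (hDA l)) hτ1 hg hg0 hq d hd
  · intro g hq h0
    exact sep_of_qmap hn hsep hD hq h0

end Pool.Agent.TG9
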