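import Pool.Agent.Lib.TG9.Defs3
import Pool.Agent.Lib.TGBC_h30.Data

/-!
# TANK G, backup track BC9: row DAT (the data of a normal affine algebra), part A
-/

set_option autoImplicit false

namespace Pool.Agent.TG9.DatAux

open Pool.Agent.TG (Ov Bir Wd Walt wmat wrow)
open Pool.Agent.LU2 (locV)
open Pool.Agent.TGJ (Dual)
open Pool.Agent.TGBC30 (qmap qmap_apply)
open Module

universe u

variable {k K : Type u} [Field k] [Field K] [Algebra k K] {n : ℕ}

/-- Expansion of the determinant along the row `i`. -/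
theorem qmap_wr (D : Fin n → Derivation k K K) (τ' : K) (i : Fin (n + 1)) (g : Fin (n + 1) → K) :
    ∃ (σ : Derivation k K K) (β : K), ∀ h : K,
      qmap D τ' (Function.update g i h) = σ h + β * h := by
  classical
  obtain ⟨A, hA⟩ : ∃ A : Fin (n + 1) → K, A = (wmat D g).transpose.adjugate i := ⟨_, rfl⟩
  refine ⟨∑ l : Fin n, (τ' * A l.succ) • D l, τ' * A 0, fun h => ?_⟩
  have h1 : Wd D (Function.update g i h) = ∑ j, A j * wrow D h j := by
    rw [Wd, TG.wmat_update, ← Matrix.cramer_transpose_apply, Matrix.cramer_eq_adjugate_mulVec, hA]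
    rfl
  rw [qmap_apply, h1, Fin.sum_univ_succ, TG.der_sum_apply, TG.wrow_zero', mul_add, Finset.mul_sum,
    add_comm]
  congr 1
  · refine Finset.sum_congr rfl fun l _ => ?_
    rw [TG.wrow_succ]
    ring
  · ring

/-- The chain rule. -/
theorem der_aeval' {σ : Type*} [Fintype σ] (D : Derivation k K K) (f : σ → K)
    (P : MvPolynomial σ k) :
    D (MvPolynomial.aeval f P) = ∑ a, MvPolynomial.aeval f (MvPolynomial.pderiv a P) * D (f a) := by
  classical
  induction P using MvPolynomial.induction_on with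
  | C a =>
    rw [MvPolynomial.aeval_C, Derivation.map_algebraMap]
    rw [Finset.sum_eq_zero]
    intro i _
    rw [MvPolynomial.pderiv_C, map_zero, zero_mul]
  | add P Q hP hQ =>
    rw [map_add, map_add, hP, hQ, ← Finset.sum_add_distrib]
    refine Finset.sum_congr rfl fun a _ => ?_
    rw [map_add, map_add, add_mul]
  | mul_X P i hP =>
    rw [map_mul, Derivation.leibniz, MvPolynomial.aeval_X, hP, smul_eq_mul, smul_eq_mul,
      Finset.mul_sum]
    have h1 : ∀ a, MvPolynomial.aeval f (MvPolynomial.pderiv a (P * MvPolynomial.X i)) * D (f a) =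
        (if a = i then MvPolynomial.aeval f P * D (f a) else 0) +
          f i * (MvPolynomial.aeval f (MvPolynomial.pderiv a P) * D (f a)) := by
      intro a
      rw [MvPolynomial.pderiv_mul, MvPolynomial.pderiv_X, map_add, map_mul, map_mul,
        MvPolynomial.aeval_X]
      by_cases h : a = i
      · subst h
        rw [Pi.single_eq_same, if_pos rfl, map_one]
        ring
      · rw [Pi.single_eq_of_ne (Ne.symm h), if_neg h, map_zero]
        ring
    rw [Finset.sum_congr rfl fun a _ => h1 a, Finset.sum_add_distrib,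
      Finset.sum_ite_eq' Finset.univ i, if_pos (Finset.mem_univ i)]

/-- The transformation under forms of degree `s`. -/
theorem qmap_jac (D : Fin n → Derivation k K K) (τ' : K) (s : ℕ)
    (h : Fin (n + 1) → MvPolynomial (Fin (n + 1)) k) (hh : ∀ i, (h i).IsHomogeneous s)
    (f : Fin (n + 1) → K) :
    (s : K) * qmap D τ' (fun j => MvPolynomial.aeval f (h j)) =
      MvPolynomial.aeval f (Matrix.det (Matrix.of fun i a => MvPolynomial.pderiv a (h i))) *
        qmap D τ' f := by
  classical
  obtain ⟨M, hM⟩ : ∃ M : Matrix (Fin (n + 1)) (Fin (n + 1)) K,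
      M = Matrix.of fun i a => MvPolynomial.aeval f (MvPolynomial.pderiv a (h i)) := ⟨_, rfl⟩
  have hdet : MvPolynomial.aeval f
      (Matrix.det (Matrix.of fun i a => MvPolynomial.pderiv a (h i))) = M.det := by
    rw [AlgHom.map_det, hM]
    congr 1
  obtain ⟨v, hv⟩ : ∃ v : Fin (n + 1) → K, v = Fin.cons (s : K) (fun _ => 1) := ⟨_, rfl⟩
  have hmul : M * wmat D f =
      Matrix.of fun i j => v j * wmat D (fun j => MvPolynomial.aeval f (h j)) i j := by
    ext i j
    rw [Matrix.mul_apply, Matrix.of_apply, TG.wmat_apply]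
    refine Fin.cases ?_ (fun l => ?_) j
    · rw [hv, Fin.cons_zero, TG.wrow_zero']
      have h2 := congrArg (MvPolynomial.aeval f) (hh i).sum_X_mul_pderiv
      rw [map_sum, map_nsmul, nsmul_eq_mul] at h2
      rw [← h2]
      refine Finset.sum_congr rfl fun a _ => ?_
      rw [map_mul, MvPolynomial.aeval_X, hM, Matrix.of_apply, TG.wmat_apply, TG.wrow_zero']
      ring
    · rw [hv, Fin.cons_succ, one_mul, TG.wrow_succ, der_aeval' (D l) f]
      refine Finset.sum_congr rfl fun a _ => ?_
      rw [hM, Matrix.of_apply, TG.wmat_apply, TG.wrow_succ]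
  have hd := congrArg Matrix.det hmul
  rw [Matrix.det_mul, Matrix.det_mul_row, Fin.prod_univ_succ, hv, Fin.cons_zero] at hd
  simp only [Fin.cons_succ, Finset.prod_const_one, mul_one] at hd
  rw [hdet, qmap_apply, qmap_apply, Wd, Wd]
  rw [← mul_assoc, mul_comm (s : K) τ', mul_assoc, ← hd]
  ring

/-- The derivations preserve the localisation. -/
theorem der_locV {A₀ : Subalgebra k K} {v : ValuationSubring K} (hAv : ∀ a ∈ A₀, a ∈ v)
    (hloc : ∀ x ∈ v, x ∈ locV v A₀) {τ : K} (hτ : v.valuation τ = 1) (D : Derivation k K K)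
    (hD : ∀ a ∈ A₀, τ * D a ∈ A₀) : ∀ x ∈ v, D x ∈ v := by
  intro x hx
  have hinv : ∀ y : K, v.valuation y = 1 → y⁻¹ ∈ v := by
    intro y hy
    rw [← v.valuation_le_one_iff, map_inv₀, hy, inv_one]
  have hne : ∀ y : K, v.valuation y = 1 → y ≠ 0 := by
    rintro y hy rfl
    rw [map_zero] at hy
    exact zero_ne_one hy
  have hDA : ∀ a ∈ A₀, D a ∈ v := by
    intro a ha
    have h1 : D a = τ⁻¹ * (τ * D a) := by
      rw [← mul_assoc, inv_mul_cancel₀ (hne τ hτ), one_mul]
    rw [h1]
    exact v.mul_mem _ _ (hinv τ hτ) (hAv _ (hD a ha))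
  obtain ⟨a, ha, b, hb, hb1, rfl⟩ := hloc x hx
  have hb0 := hne b hb1
  have h2 : D a = D (a / b * b) := by rw [div_mul_cancel₀ _ hb0]
  rw [Derivation.leibniz, smul_eq_mul, smul_eq_mul] at h2
  have h3 : D (a / b) = b⁻¹ * (D a - a / b * D b) := by
    rw [h2, add_sub_cancel_left, ← mul_assoc, inv_mul_cancel₀ hb0, one_mul]
  rw [h3]
  exact v.mul_mem _ _ (hinv b hb1) (v.sub_mem (hDA a ha) (v.mul_mem _ _ hx (hDA b hb)))

end Pool.Agent.TG9.DatAux
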