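import Pool.Agent.Lib.TG.A5
import Pool.Agent.Lib.TG.WLz

/-!
# TANK G: the graded normalisation `H_N(W)` of a model (helper68), basic properties

`HN W N = {f : v(f) ≥ N v(W) for all valuation rings v ⊇ k}`.
-/

set_option autoImplicit false

namespace Pool.Agent.TG

open Pool.Agent.LU2 (locV IsPar Mono le_locV locV_mono locV_le locV_inv locV_mem locV_locV)

universe u

variable {k K : Type u} [Field k] [Field K] [Algebra k K] {V : ValuationSubring K}
  {W P Q : Submodule k K} {f g w : K} {N : ℕ}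

/-- `H_N(W) = {f : v(f) ≥ N v(W) for all valuation rings v ⊇ k}`. -/
def HN (W : Submodule k K) (N : ℕ) : Submodule k K where
  carrier := {f | ∀ V : ValuationSubring K, Ov k V → ∀ w, IsMin V W w → f / w ^ N ∈ V}
  add_mem' := by
    intro a b ha hb V hV w hw
    rw [add_div]
    exact V.add_mem _ _ (ha V hV w hw) (hb V hV w hw)
  zero_mem' := by
    intro V hV w hw
    rw [zero_div]
    exact V.zero_mem
  smul_mem' := by
    intro c a ha V hV w hw
    rw [smul_div_assoc]
    exact hV.smul_mem c (ha V hV w hw)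

theorem mem_HN : f ∈ HN W N ↔ ∀ V : ValuationSubring K, Ov k V → ∀ w, IsMin V W w →
    f / w ^ N ∈ V := Iff.rfl

theorem pow_le_HN (W : Submodule k K) (N : ℕ) : W ^ N ≤ HN W N := fun _ hf _ hV _ hw =>
  (hw.pow hV N).div _ hf

theorem HN_mul_mem {a b : ℕ} (hf : f ∈ HN W a) (hg : g ∈ HN W b) : f * g ∈ HN W (a + b) := by
  intro V hV w hw
  rw [pow_add, mul_div_mul_comm]
  exact V.mul_mem _ _ (hf V hV w hw) (hg V hV w hw)

theorem HN_mul_le (W : Submodule k K) (a b : ℕ) : HN W a * HN W b ≤ HN W (a + b) :=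
  Submodule.mul_le.2 fun _ hf _ hg => HN_mul_mem hf hg

theorem pow_mul_HN_le (W : Submodule k K) (a b : ℕ) : W ^ a * HN W b ≤ HN W (a + b) :=
  (Submodule.mul_le.2 fun _ hf _ hg => HN_mul_mem (pow_le_HN W a hf) hg)

theorem HN_pow_mem {a : ℕ} (hf : f ∈ HN W a) (r : ℕ) : f ^ r ∈ HN W (a * r) := by
  intro V hV w hw
  rw [pow_mul, ← div_pow]
  exact pow_mem (hf V hV w hw) r

/-- `H_N(W)` is integrally closed. -/
theorem HN_of_pow_mem {a r : ℕ} (hr : r ≠ 0) (hf : f ^ r ∈ HN W (a * r)) : f ∈ HN W a := by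
  intro V hV w hw
  have h1 := hf V hV w hw
  rw [pow_mul, ← div_pow] at h1
  by_contra h2
  have h3 : 1 < V.valuation (f / w ^ a) := by
    rw [← not_le, V.valuation_le_one_iff]
    exact h2
  have h4 : V.valuation ((f / w ^ a) ^ r) ≤ 1 := (V.valuation_le_one_iff _).2 h1
  rw [map_pow] at h4
  exact absurd h4 (not_le.2 (one_lt_pow₀ h3 hr))

theorem one_mem_HN_zero (W : Submodule k K) : (1 : K) ∈ HN W 0 := fun V _ w _ => by
  rw [pow_zero, div_one]
  exact V.one_mem

/-- It suffices to test one minimal element for every valuation ring. -/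
theorem mem_HN_of_exists (h : ∀ V : ValuationSubring K, Ov k V → ∃ w, IsMin V W w ∧
    f / w ^ N ∈ V) : f ∈ HN W N := by
  intro V hV w hw
  obtain ⟨w', hw', h1⟩ := h V hV
  have h2 : f / w ^ N = f / w' ^ N * (w' / w) ^ N := by
    rw [div_pow, div_mul_div_cancel₀ (pow_ne_zero N hw'.ne)]
  rw [h2]
  exact V.mul_mem _ _ h1 (pow_mem (hw.div _ hw'.mem) N)

theorem HN_pow {M : ℕ} (hW : IsModel W) (N : ℕ) : HN (W ^ M) N = HN W (M * N) := by
  ext f
  constructor
  · intro h
    refine mem_HN_of_exists fun V hV => ?_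
    obtain ⟨w, hw⟩ := exists_isMin hV hW
    refine ⟨w, hw, ?_⟩
    rw [pow_mul]
    exact h V hV _ (hw.pow hV M)
  · intro h
    refine mem_HN_of_exists fun V hV => ?_
    obtain ⟨w, hw⟩ := exists_isMin hV hW
    refine ⟨w ^ M, hw.pow hV M, ?_⟩
    rw [← pow_mul]
    exact h V hV _ hw

/-- An element of all the valuation rings containing the subalgebra `R` is integral over `R`. -/
theorem isIntegral_of_forall_mem {k K : Type*} [Field k] [Field K] [Algebra k K]
    (R : Subalgebra k K) {x : K}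
    (h : ∀ V : ValuationSubring K, (∀ a ∈ R, a ∈ V) → x ∈ V) : IsIntegral R x := by
  have h1 : x ∈ (⨅ V : {V : ValuationSubring K // (R : Set K) ⊆ V.toSubring},
      V.1.toSubring : Subring K) := by
    rw [Subring.mem_iInf]
    rintro ⟨W, hW⟩
    exact h W fun a ha => hW ha
  rw [iInf_valuationSubring_superset] at h1
  have h2 : IsIntegral (Subring.closure (R : Set K)) x := h1
  have h3 : Subring.closure (R : Set K) ≤ R.toSubring := Subring.closure_le.2 fun a ha => ha
  obtain ⟨p, hp, hpx⟩ := h2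
  refine ⟨p.map (Subring.inclusion h3), hp.map _, ?_⟩
  rw [Polynomial.eval₂_map]
  exact hpx

/-- The affine description of `H_N`. -/
theorem mem_HN_iff_chN (hW : IsModel W) : f ∈ HN W N ↔
    ∀ w ∈ W, w ≠ 0 → f / w ^ N ∈ chN W w := by
  constructor
  · intro h w hw hw0
    refine isIntegral_of_forall_mem (ch W w) fun V hV => ?_
    have hk : Ov k V := fun c => hV _ ((ch W w).algebraMap_mem c)
    exact h V hk w ⟨hw, hw0, fun g hg => hV _ (div_mem_ch hg)⟩
  · intro h V hV w hw
    exact ncl_mem (ch_le hV hw) _ (h w hw.mem hw.ne)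

/-- It suffices to test the elements of a spanning set. -/
theorem mem_HN_of_span {S : Finset K} (hS : Submodule.span k (S : Set K) = W)
    (hS1 : ∃ w ∈ S, w ≠ 0) (h : ∀ w ∈ S, w ≠ 0 → f / w ^ N ∈ chN W w) : f ∈ HN W N := by
  refine mem_HN_of_exists fun V hV => ?_
  obtain ⟨w, hw, hwm⟩ := exists_isMin_mem hV S hS1
  rw [hS] at hwm
  exact ⟨w, hwm, ncl_mem (ch_le hV hwm) _ (h w hw hwm.ne)⟩

/-- It suffices to test the zero-dimensional valuation rings. -/
theorem mem_HN_zdim [IsAlgClosed k] (hW : IsModel W) (h : ∀ V : ValuationSubring K, ZDim k V →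
    ∃ w, IsMin V W w ∧ f / w ^ N ∈ V) : f ∈ HN W N := by
  refine mem_HN_of_exists fun V hV => ?_
  obtain ⟨V', hle, hV'⟩ := exists_zdim_le hV
  obtain ⟨w, hw, h1⟩ := h V' hV'
  exact ⟨w, hw.of_le hle, hle h1⟩

theorem HN_ne_bot (hW : IsModel W) (N : ℕ) : HN W N ≠ ⊥ := fun h => by
  apply (hW.pow N).ne
  rw [eq_bot_iff, ← h]
  exact pow_le_HN W N

/-- `H_0(W) = k` if `k` is algebraically closed. -/
theorem HN_zero [IsAlgClosed k] (hW : IsModel W) : HN W 0 = 1 := by
  refine le_antisymm (fun f hf => ?_) (by rw [← pow_zero W]; exact pow_le_HN W 0)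
  have h1 : IsIntegral (⊥ : Subalgebra k K) f := by
    refine isIntegral_of_forall_mem _ fun V hV => ?_
    have hk : Ov k V := fun c => hV _ ((⊥ : Subalgebra k K).algebraMap_mem c)
    obtain ⟨w, hw⟩ := exists_isMin hk hW
    have := hf V hk w hw
    rwa [pow_zero, div_one] at this
  have h2 : IsIntegral k f := by
    have h3 : Algebra.IsIntegral k (⊥ : Subalgebra k K) := ⟨fun x => by
      obtain ⟨x, hx⟩ := x
      obtain ⟨c, rfl⟩ := Algebra.mem_bot.1 hx
      exact (isIntegral_algebraMap (R := k) (x := c) : IsIntegral k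
        (algebraMap k (⊥ : Subalgebra k K) c))⟩
    exact isIntegral_trans f h1
  have h4 : (minpoly k f).degree = 1 :=
    IsAlgClosed.degree_eq_one_of_irreducible k (minpoly.irreducible h2)
  obtain ⟨c, hc⟩ := minpoly.mem_range_of_degree_eq_one k f h4
  exact Submodule.mem_one.2 ⟨c, hc⟩

end Pool.Agent.TG
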