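import Pool.Agent.Lib.TG_h68.FinClos
import Pool.Agent.Lib.LU2_h15.Basic

/-!
# TANK G, A5: the normalisation of a model is a model (helper68): integrality in a degree
-/

set_option autoImplicit false

namespace Pool.Agent.TGh68

open Polynomial

universe u

variable {k K : Type u} [Field k] [Field K] [Algebra k K]

/-- the chart `k[P / f]` -/
def ch0 (P : Submodule k K) (f : K) : Subalgebra k K :=
  Algebra.adjoin k ((fun g => g / f) '' (P : Set K))

theorem div_mem_ch0 {P : Submodule k K} {g : K} (hg : g ∈ P) (f : K) : g / f ∈ ch0 P f :=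
  Algebra.subset_adjoin ⟨g, hg, rfl⟩

theorem pow_div_mem_ch0 (P : Submodule k K) (f : K) (m : ℕ) {q : K} (hq : q ∈ P ^ m) :
    q / f ^ m ∈ ch0 P f := by
  induction m generalizing q with
  | zero =>
    rw [pow_zero] at hq ⊢
    obtain ⟨c, rfl⟩ := Submodule.mem_one.1 hq
    rw [div_one]
    exact Subalgebra.algebraMap_mem _ c
  | succ m ih =>
    rw [pow_succ] at hq
    induction hq using Submodule.mul_induction_on' with
    | mem_mul_mem a ha b hb =>
      rw [pow_succ, mul_div_mul_comm]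
      exact mul_mem (ih ha) (div_mem_ch0 hb f)
    | add a _ b _ ha hb =>
      rw [add_div]
      exact add_mem ha hb

theorem exists_pow_of_mem_ch0 {P : Submodule k K} {f : K} (hf : f ∈ P) (hf0 : f ≠ 0) {a : K}
    (ha : a ∈ ch0 P f) : ∃ m : ℕ, ∀ m' : ℕ, m ≤ m' → a * f ^ m' ∈ P ^ m' := by
  have hmono : ∀ (a : K) (m : ℕ), a * f ^ m ∈ P ^ m → ∀ m', m ≤ m' → a * f ^ m' ∈ P ^ m' := by
    intro a m h m' hm
    obtain ⟨j, rfl⟩ := Nat.exists_eq_add_of_le hm
    rw [pow_add, pow_add, ← mul_assoc]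
    exact Submodule.mul_mem_mul h (Submodule.pow_mem_pow P hf j)
  have key : ∃ m : ℕ, a * f ^ m ∈ P ^ m := by
    induction ha using Algebra.adjoin_induction with
    | mem x hx =>
      obtain ⟨g, hg, rfl⟩ := hx
      refine ⟨1, ?_⟩
      rw [pow_one, pow_one]
      simp only
      rw [div_mul_cancel₀ _ hf0]
      exact hg
    | algebraMap c => exact ⟨0, by
        rw [pow_zero, pow_zero, mul_one]; exact Submodule.mem_one.2 ⟨c, rfl⟩⟩
    | add x y _ _ hx hy =>
      obtain ⟨m, hm⟩ := hx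
      obtain ⟨m', hm'⟩ := hy
      refine ⟨max m m', ?_⟩
      rw [add_mul]
      exact add_mem (hmono _ _ hm _ (le_max_left _ _)) (hmono _ _ hm' _ (le_max_right _ _))
    | mul x y _ _ hx hy =>
      obtain ⟨m, hm⟩ := hx
      obtain ⟨m', hm'⟩ := hy
      refine ⟨m + m', ?_⟩
      rw [pow_add, pow_add]
      have : x * y * (f ^ m * f ^ m') = (x * f ^ m) * (y * f ^ m') := by ring
      rw [this]
      exact Submodule.mul_mem_mul hm hm'
  obtain ⟨m, hm⟩ := key
  exact ⟨m, hmono a m hm⟩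

/-- Integral elements of a chart are integral in a degree, over all charts. -/
theorem exists_shift {P : Submodule k K} {f : K} (hf : f ∈ P) (hf0 : f ≠ 0) {g : K}
    (hg : IsIntegral (ch0 P f) g) :
    ∃ M : ℕ, ∀ M', M ≤ M' → ∀ f' ∈ P, f' ≠ 0 → IsIntegral (ch0 P f') (g * f ^ M' / f' ^ M') := by
  classical
  obtain ⟨p, hp, hpg⟩ := hg
  -- a common exponent
  obtain ⟨m, hm⟩ : ∃ m : ℕ, ∀ j, ∀ m', m ≤ m' → (p.coeff j : K) * f ^ m' ∈ P ^ m' := by
    choose m hm using fun j => exists_pow_of_mem_ch0 hf hf0 (p.coeff j).2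
    refine ⟨∑ j ∈ Finset.range (p.natDegree + 1), m j, fun j m' hm' => ?_⟩
    by_cases hj : j ≤ p.natDegree
    · exact hm j m' ((Finset.single_le_sum (f := m) (fun _ _ => Nat.zero_le _)
        (Finset.mem_range.2 (Nat.lt_succ_of_le hj))).trans hm')
    · rw [Polynomial.coeff_eq_zero_of_natDegree_lt (not_le.1 hj), ZeroMemClass.coe_zero, zero_mul]
      exact Submodule.zero_mem _
  refine ⟨m, fun M hM f' hf' hf'0 => ?_⟩
  set d := p.natDegree with hd
  have hc : ∀ j < d, (p.coeff j : K) * (f ^ M / f' ^ M) ^ (d - j) ∈ ch0 P f' := by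
    intro j hj
    obtain ⟨e, he⟩ : ∃ e, d - j = e + 1 := ⟨d - j - 1, by omega⟩
    have h1 : (p.coeff j : K) * f ^ M * f ^ (M * e) ∈ P ^ (M * (e + 1)) := by
      rw [mul_add, mul_one, add_comm, pow_add]
      exact Submodule.mul_mem_mul (hm j M hM) (Submodule.pow_mem_pow P hf _)
    have h2 := pow_div_mem_ch0 P f' _ h1
    have h3 : (p.coeff j : K) * (f ^ M / f' ^ M) ^ (d - j) =
        (p.coeff j : K) * f ^ M * f ^ (M * e) / f' ^ (M * (e + 1)) := by
      rw [he, div_pow, ← pow_mul, ← pow_mul, mul_add, mul_one, pow_add]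
      ring
    rw [h3]
    exact h2
  let c : ℕ → ch0 P f' := fun j => if h : j < d then ⟨_, hc j h⟩ else 0
  have hcc : ∀ j < d, ((c j : ch0 P f') : K) = (p.coeff j : K) * (f ^ M / f' ^ M) ^ (d - j) := by
    intro j hj
    simp only [c, dif_pos hj]
  refine ⟨X ^ d + ∑ j ∈ Finset.range d, C (c j) * X ^ j, ?_, ?_⟩
  · refine monic_X_pow_add (lt_of_le_of_lt (degree_sum_le _ _) ?_)
    rw [Finset.sup_lt_iff (by exact WithBot.bot_lt_coe d)]
    intro j hj
    exact lt_of_le_of_lt (degree_C_mul_X_pow_le j (c j))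
      (by exact_mod_cast Finset.mem_range.1 hj)
  · have h1 : (g : K) ^ d + ∑ j ∈ Finset.range d, (p.coeff j : K) * g ^ j = 0 := by
      have h2 := hpg
      rw [eval₂_eq_sum_range, Finset.sum_range_succ, ← hd] at h2
      have h3 : p.coeff d = 1 := hp.coeff_natDegree
      rw [h3, map_one, one_mul, add_comm] at h2
      exact h2
    rw [eval₂_add, eval₂_X_pow, eval₂_finset_sum]
    have h4 : ∀ j ∈ Finset.range d, eval₂ (algebraMap (ch0 P f') K) (g * f ^ M / f' ^ M)
        (C (c j) * X ^ j) = (f ^ M / f' ^ M) ^ d * ((p.coeff j : K) * g ^ j) := by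
      intro j hj
      have hj' := Finset.mem_range.1 hj
      rw [eval₂_mul, eval₂_C, eval₂_X_pow]
      change (c j : K) * _ = _
      rw [hcc j hj']
      have h5 : g * f ^ M / f' ^ M = g * (f ^ M / f' ^ M) := by ring
      rw [h5, mul_pow]
      have h6 : (f ^ M / f' ^ M) ^ d = (f ^ M / f' ^ M) ^ (d - j) * (f ^ M / f' ^ M) ^ j := by
        rw [← pow_add]
        congr 1
        omega
      rw [h6]
      ring
    rw [Finset.sum_congr rfl h4, ← Finset.mul_sum]
    have h5 : g * f ^ M / f' ^ M = g * (f ^ M / f' ^ M) := by ring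
    rw [h5, mul_pow]
    linear_combination (f ^ M / f' ^ M) ^ d * h1

end Pool.Agent.TGh68
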